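import Pool.Agent.Work.MP_71c844_lc.AV.GapAbs
import Pool.Agent.Work.MP_71c844_lc.AV.Cb
import Pool.Agent.Work.MP_71c844_lc.GR.FinalB

/-!
# Block AV: the gap version, on average
-/

namespace Pool.Agent.AV

open Finset Pool.Agent.GapLim Pool.Agent.LayCirc Pool.Agent.GR
open Pool.Agent.NegLim (gval numNot lowSets)

set_option linter.unusedSectionVars false

open Classical in
/-- the circuit with the output `b` errs: it rejects a graph with an `s`-clique, or it accepts a
graph without a `k`-clique -/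
noncomputable def eg (s k : ℕ) {v : ℕ} (x : Sym2 (Fin v) → Bool) (b : Bool) : ℝ :=
  if (¬ (SimpleGraph.fromEdgeSet {e | x e = true}).CliqueFree s ∧ b = false) ∨
    ((SimpleGraph.fromEdgeSet {e | x e = true}).CliqueFree k ∧ b = true) then 1 else 0

lemma eg_nonneg (s k : ℕ) {v : ℕ} (x : Sym2 (Fin v) → Bool) (b : Bool) : 0 ≤ eg s k x b := by
  unfold eg; split_ifs <;> norm_num

open Classical in
/-- `1 - 2 Pr[the circuit errs]` -/
lemma adv_eg {s k v : ℕ} {D : (Sym2 (Fin v) → Bool) → ℝ} (h : ∑ x, D x = 1)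
    {f : (Sym2 (Fin v) → Bool) → Bool} :
    1 - 2 * ∑ x, D x * eg s k x (f x) =
      ∑ x, D x * (if (¬ (SimpleGraph.fromEdgeSet {e | x e = true}).CliqueFree s ∧ f x = false) ∨
        ((SimpleGraph.fromEdgeSet {e | x e = true}).CliqueFree k ∧ f x = true)
          then -1 else 1) := by
  have e1 : ∀ x, D x * (if (¬ (SimpleGraph.fromEdgeSet {e | x e = true}).CliqueFree s ∧
        f x = false) ∨ ((SimpleGraph.fromEdgeSet {e | x e = true}).CliqueFree k ∧ f x = true)
          then (-1 : ℝ) else 1) = D x - 2 * (D x * eg s k x (f x)) := by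
    intro x
    unfold eg
    split_ifs with hx
    · ring
    · ring
  rw [Finset.sum_congr rfl fun x _ => e1 x, Finset.sum_sub_distrib, h, ← Finset.mul_sum]

section par

variable {v s q b R K' D B L k S : ℕ}

/-- the union graph has no large clique with high probability -/
lemma badB (I : ItemsB) (P : ParB v s q b R K' D B L k S) (i : ℕ) (hi : i < 2 ^ K') :
    Sn (Ω := St (Fin v) (Fin (64 * b ^ 2))) (wgt (rho b R q)) gr i
      (fun x => ind (HasCl k x)) ∅ ≤ (33 / 40) ^ k := by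
  rw [I.Sl I.Ly]
  simp only [Finset.empty_union]
  have hb := P.hb
  have hb2 : 1 ≤ b ^ 2 := Nat.one_le_pow _ _ (by omega)
  have hq : (0 : ℝ) < q := by exact_mod_cast P.q1
  refine cb_small I.KrB I.WtB I.CmB I.MoB I.Ly I.Pr v (64 * b ^ 2) D B L k i (rho b R q) P.hv
    (by omega) P.hD P.hL P.hk P.hZ P.rho0 P.rho1 ?_ ?_
  · have h : (B : ℝ) * k * (16 * b * R) ≤ q := by exact_mod_cast P.hB
    unfold rho
    rw [← mul_div_assoc, div_le_one hq]
    exact h
  · have hi' : (i : ℝ) ≤ 2 ^ K' := by exact_mod_cast hi.le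
    have hK : (2 : ℝ) ^ K' * (6 * k * (16 * b * R) ^ 2) ≤ (q : ℝ) ^ 2 := by
      exact_mod_cast P.hK
    have e : 6 * (i : ℝ) * k * rho b R q ^ 2 = i * (6 * k * (16 * b * R) ^ 2) / (q : ℝ) ^ 2 := by
      unfold rho
      rw [div_pow]
      ring
    rw [e, div_le_one (by positivity)]
    refine le_trans ?_ hK
    exact mul_le_mul_of_nonneg_right hi' (by positivity)

/-- the error of the union graph is small -/
lemma small_err (P : ParB v s q b R K' D B L k S) (hK'L : K' ≤ 2 * L) :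
    (2 : ℝ) ^ K' * (33 / 40) ^ k ≤ 1 := by
  have hb := P.hb
  have hb2 : 4 ≤ b ^ 2 := by nlinarith
  have hκ : 256 ≤ (64 * b ^ 2) ^ D := by
    have h1 : 64 * b ^ 2 ≤ (64 * b ^ 2) ^ D := Nat.le_self_pow (by have := P.hD; omega) _
    omega
  have hk : 8 * L ≤ k := by
    refine le_trans ?_ P.hk
    rw [mul_comm]
    exact Nat.mul_le_mul_left _ (by omega)
  have h1 : (33 / 40 : ℝ) ^ k ≤ (33 / 40) ^ (8 * L) :=
    pow_le_pow_of_le_one (by norm_num) (by norm_num) hk
  have h2 : (33 / 40 : ℝ) ^ (8 * L) ≤ (1 / 4) ^ L := by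
    rw [pow_mul]
    exact pow_le_pow_left₀ (by positivity) (by norm_num) L
  have h3 : (2 : ℝ) ^ K' ≤ 4 ^ L := by
    calc (2 : ℝ) ^ K' ≤ 2 ^ (2 * L) := pow_le_pow_right₀ (by norm_num) hK'L
      _ = 4 ^ L := by rw [pow_mul]; norm_num
  have h4 : (4 : ℝ) ^ L * (1 / 4) ^ L = 1 := by rw [← mul_pow]; norm_num
  calc (2 : ℝ) ^ K' * (33 / 40) ^ k ≤ 4 ^ L * (1 / 4) ^ L :=
        mul_le_mul h3 (h1.trans h2) (by positivity) (by positivity)
    _ = 1 := h4

lemma inp_idp_mono (x : ℕ → Finset (Sym2 (Fin v))) (hx : Monotone x) :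
    Monotone (fun i => inp (idp v) (x i)) := by
  intro i j hij e
  show inp (idp v) (x i) e ≤ inp (idp v) (x j) e
  unfold inp NegLim.pull idp
  have := hx hij
  by_cases h : e ∈ x i
  · simp only [h, this h, le_refl]
  · simp only [h, decide_false]
    exact Bool.false_le _

/-- The average-case bound in terms of the parameters. -/
theorem gap_avg (I : ItemsB) (P : ParB v s q b R K' D B L k S) (hK'L : K' ≤ 2 * L) :
    ∃ Dd : (Sym2 (Fin v) → Bool) → ℝ, (∀ x, 0 ≤ Dd x) ∧ ∑ x, Dd x = 1 ∧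
      ∀ (S' M : ℕ) (c : Circuit (Sym2 (Fin v)) S') (o : Fin S'), 2 * S' ≤ S →
        ((∀ x : ℕ → (Sym2 (Fin v) → Bool), Monotone x →
            (Set.range fun i => pattern c (x i)).ncard ≤ M) ∨
          wires c + numMixing c + 1 ≤ M ∨ (FormulaLike c ∧ wires c + numArb c + 1 ≤ M)) →
        (2 : ℝ) ^ K' * (1 - 2 * ∑ x, Dd x * eg s k x (val c x o)) ≤
          11 * ((K' + 1 : ℕ) : ℝ) * (4 * M) + 1 := by
  classical
  obtain ⟨ι⟩ := P.emb
  have : Nonempty (Fin s → Fin q) := ⟨fun _ => ⟨0, P.q1⟩⟩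
  obtain ⟨Dd, hD0, hD1, hDh⟩ := exists_distS (Ω := St (Fin v) (Fin (64 * b ^ 2)))
    (E := Sym2 (Fin v)) (p := wgt (rho b R q)) (D := gr) (U := Fin s → Fin q)
    (ι := Sym2 (Fin v)) (n := 2 ^ K') P.w0 P.w1 Nat.one_le_two_pow
    (fun u => cl (plant ι u)) (idp v)
  refine ⟨Dd, fun x => hD0 x, hD1, ?_⟩
  intro S' M c o hS' hM
  rw [hDh (fun x => eg s k x (val c x o))]
  have hη := small_err P hK'L
  -- the hypotheses on the errors
  have hno : ∀ x : Finset (Sym2 (Fin v)), val c (inp (idp v) x) o = true →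
      (1 : ℝ) ≤ ind (HasCl k x) + eg s k (inp (idp v) x) (val c (inp (idp v) x) o) := by
    intro x hx
    by_cases h : HasCl k x
    · rw [ind_true h]
      linarith [eg_nonneg s k (inp (idp v) x) (val c (inp (idp v) x) o)]
    · rw [ind_false h, zero_add]
      unfold eg
      rw [if_pos]
      right
      refine ⟨?_, hx⟩
      by_contra h1
      exact h ((hasCl_iff k x).mpr h1)
  have hyes : ∀ (x : Finset (Sym2 (Fin v))) (u : Fin s → Fin q),
      val c (inp (idp v) (x ∪ cl (plant ι u))) o = false →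
      (1 : ℝ) ≤ eg s k (inp (idp v) (x ∪ cl (plant ι u)))
        (val c (inp (idp v) (x ∪ cl (plant ι u))) o) := by
    intro x u hx
    unfold eg
    rw [if_pos]
    left
    exact ⟨(hasCl_iff s _).mp (hasCl_planted x ι u), hx⟩
  have hind0 : ∀ x : Finset (Sym2 (Fin v)), (0 : ℝ) ≤ ind (HasCl k x) := by
    intro x
    by_cases h : HasCl k x
    · rw [ind_true h]; norm_num
    · rw [ind_false h]
  rcases hM with h | h
  · have hM1 : 1 ≤ M := by
      have h1 := h (fun _ _ => true) monotone_const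
      rw [Set.range_const, Set.ncard_singleton] at h1
      exact h1
    have key := avgS_abs (Ω := St (Fin v) (Fin (64 * b ^ 2))) (E := Sym2 (Fin v))
      (p := wgt (rho b R q)) (D := gr) (U := Fin s → Fin q) (J := Unit) (H := Fin S' → Bool)
      (K' := K') (ε := err v b R (K' + 1) S) (η := (33 / 40) ^ k)
      (Q := fun u => cl (plant ι u)) P.w0 P.w1
      (by unfold err; positivity) P.err_le (fun _ => M) (fun _ => hM1) (fun _ => pat (idp v) c)
      (fun _ h => gval (qry (idp v) c o h) 0) ?_ ?_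
      (fun x => val c (inp (idp v) x) o)
      (fun x => eg s k (inp (idp v) x) (val c (inp (idp v) x) o))
      (fun x => ind (HasCl k x)) (fun x => eg_nonneg _ _ _ _) hind0 hno hyes ?_
      (fun i hi => badB I P i hi)
    · have e1 : 11 * ((K' + 1 : ℕ) : ℝ) * ((∑ _j : Unit, M : ℕ) : ℝ) ≤
          11 * ((K' + 1 : ℕ) : ℝ) * (4 * M) := by
        apply mul_le_mul_of_nonneg_left _ (by positivity)
        simp only [Finset.univ_unique, Finset.sum_const, Finset.card_singleton, one_smul]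
        have : (0 : ℝ) ≤ M := by positivity
        linarith
      linarith
    · intro _ x hx m
      exact card_pat _ (idp v) c x m M (h _ (inp_idp_mono x hx))
    · intro _ h
      exact P.dich I ι (qry (idp v) c o h) (numNot_qry (idp v) c o h)
        ((size_qry (idp v) c o h).trans hS') 0
    · intro x u hx hxu
      exact ⟨(), (pat_cover (idp v) c o x x (Finset.Subset.refl _) hx).1,
        (pat_cover (idp v) c o x (x ∪ cl (plant ι u)) Finset.subset_union_left hx).2 hxu⟩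
  · have hW : wires c + numMixing c + 1 ≤ M := by
      rcases h with h | h
      · exact h
      · have := numMixing_le c h.1
        omega
    let T : Type := {i : Fin S' // i ∈ tgt c o} × Bool
    have hT : Fintype.card T ≤ 4 * M := by
      have h1 := card_tgt c o
      have h2 : Fintype.card T = (tgt c o).card * 2 := by
        rw [Fintype.card_prod, Fintype.card_coe, Fintype.card_bool]
      rw [h2]
      omega
    have hsz : LayCirc.size c ≤ S := by
      have h1 : LayCirc.size c ≤ S' := by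
        unfold LayCirc.size
        refine (Finite.card_subtype_le _).trans ?_
        rw [Nat.card_eq_fintype_card, Fintype.card_fin]
      omega
    have key := avgS_abs (Ω := St (Fin v) (Fin (64 * b ^ 2))) (E := Sym2 (Fin v))
      (p := wgt (rho b R q)) (D := gr) (U := Fin s → Fin q) (J := T) (H := Unit)
      (K' := K') (ε := err v b R (K' + 1) S) (η := (33 / 40) ^ k)
      (Q := fun u => cl (plant ι u)) P.w0 P.w1
      (by unfold err; positivity) P.err_le (fun _ => 1) (fun _ => le_rfl) (fun _ _ => ())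
      (fun t _ => gval (mono c t.1.1 t.2) 0) ?_ ?_
      (fun x => val c (inp (idp v) x) o)
      (fun x => eg s k (inp (idp v) x) (val c (inp (idp v) x) o))
      (fun x => ind (HasCl k x)) (fun x => eg_nonneg _ _ _ _) hind0 hno hyes ?_
      (fun i hi => badB I P i hi)
    · have e1 : 11 * ((K' + 1 : ℕ) : ℝ) * ((∑ _j : T, 1 : ℕ) : ℝ) ≤
          11 * ((K' + 1 : ℕ) : ℝ) * (4 * M) := by
        apply mul_le_mul_of_nonneg_left _ (by positivity)
        rw [Finset.sum_const, Finset.card_univ, smul_eq_mul, mul_one]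
        exact_mod_cast hT
      linarith
    · intro _ x hx m
      refine Finset.card_le_one.mpr ?_
      intro a _ b _
      rfl
    · intro t _
      exact P.dich I ι (mono c t.1.1 t.2) (numNot_mono _ _ _) ((size_mono c t.1.1 t.2).trans hsz) 0
    · intro x u hx hxu
      by_contra hcon
      push Not at hcon
      have hdet := det c o (inp (idp v) x) (inp (idp v) (x ∪ cl (plant ι u))) (by
        intro i hi b'
        have e : ∀ z : Finset (Sym2 (Fin v)), gval (mono c i b') 0 z =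
            val (fz c b') (inp (idp v) z) i := fun z => output_mono c i b' (inp (idp v) z)
        rw [← e, ← e]
        have h1 := hcon (⟨i, hi⟩, b')
        rcases hgx : gval (mono c i b') 0 x with _ | _
        · have h4 := h1 hgx
          simp only [ne_eq, Bool.not_eq_true] at h4
          rw [h4]
        · exact (NegLim.gval_mono _ (numNot_mono _ _ _) 0 Finset.subset_union_left hgx).symm)
      rw [hx, hxu] at hdet
      cases hdet

end par

open Classical in
lemma exists_pt (v : ℕ) : ∃ D : (Sym2 (Fin v) → Bool) → ℝ, (∀ x, 0 ≤ D x) ∧ ∑ x, D x = 1 := by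
  refine ⟨Pi.single (fun _ => false) 1, ?_, ?_⟩
  · intro x
    by_cases h : x = fun _ => false
    · subst h; simp
    · rw [Pi.single_eq_of_ne h]
  · simp

/-- **The average-case theorem for the gap version.** -/
theorem main_gap (I : ItemsB) (v s k w D : ℕ) (hv : 2 ≤ v) (hs : 1 ≤ s) (hw : 1 ≤ w)
    (hk : (Nat.log 2 v + 1) * (64 * (w + 1) ^ 2) ^ D ≤ k)
    (hD : v ^ 12 * (2 ^ 10 * s * k * (w + 1) ^ 2 * (Nat.log 2 v + 1)) ^ D ≤ v ^ D) :
    ∃ Dd : (Sym2 (Fin v) → Bool) → ℝ, (∀ x, 0 ≤ Dd x) ∧ ∑ x, Dd x = 1 ∧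
      ∀ (S M : ℕ) (c : Circuit (Sym2 (Fin v)) S) (o : Fin S), S < 2 ^ w →
        ((∀ x : ℕ → (Sym2 (Fin v) → Bool), Monotone x →
            (Set.range fun i => pattern c (x i)).ncard ≤ M) ∨
          wires c + numMixing c + 1 ≤ M ∨ (FormulaLike c ∧ wires c + numArb c + 1 ≤ M)) →
        (v : ℝ) ^ 2 * (1 - 2 * ∑ x, Dd x * eg s k x (val c x o)) <
          2 ^ 28 * M * s ^ 2 * k * (w + 1) ^ 4 * (Nat.log 2 v + 1) ^ 3 := by
  -- names for the parameters
  obtain ⟨b, hb⟩ : ∃ b, b = w + 1 := ⟨_, rfl⟩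
  obtain ⟨L, hL⟩ : ∃ L, L = Nat.log 2 v + 1 := ⟨_, rfl⟩
  obtain ⟨κ, hκ⟩ : ∃ κ, κ = 64 * b ^ 2 := ⟨_, rfl⟩
  have hL' : ((Nat.log 2 v : ℝ) + 1) = (L : ℝ) := by rw [hL]; push_cast; ring
  have hb' : ((w : ℝ) + 1) = (b : ℝ) := by rw [hb]; push_cast; ring
  rw [hL', hb']
  rw [← hb, ← hL] at hk hD
  rw [← hκ] at hk
  have hb2 : 2 ≤ b := by omega
  have hL2 : 2 ≤ L := by
    have : 1 ≤ Nat.log 2 v := Nat.log_pos (by norm_num) hv
    omega
  have hvL : v < 2 ^ L := by rw [hL]; exact Nat.lt_pow_succ_log_self (by norm_num) v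
  have hκ1 : 1 ≤ κ := by rw [hκ]; have : 1 ≤ b ^ 2 := Nat.one_le_pow _ _ (by omega); omega
  have hκD1 : 1 ≤ κ ^ D := Nat.one_le_pow _ _ (by omega)
  have hk1 : 1 ≤ k := by
    refine le_trans ?_ hk
    exact Nat.one_le_iff_ne_zero.mpr (by positivity)
  have hM1 : ∀ {S : ℕ} {c : Circuit (Sym2 (Fin v)) S} {M : ℕ},
      ((∀ x : ℕ → (Sym2 (Fin v) → Bool), Monotone x →
        (Set.range fun i => pattern c (x i)).ncard ≤ M) ∨
      wires c + numMixing c + 1 ≤ M ∨ (FormulaLike c ∧ wires c + numArb c + 1 ≤ M)) → 1 ≤ M := by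
    intro S c M hM
    rcases hM with h | h | h
    · have h1 := h (fun _ _ => true) monotone_const
      rw [Set.range_const, Set.ncard_singleton] at h1
      exact h1
    · omega
    · omega
  have hbR : (1 : ℝ) ≤ b := by exact_mod_cast (by omega : 1 ≤ b)
  have hLR : (1 : ℝ) ≤ L := by exact_mod_cast (by omega : 1 ≤ L)
  have hsR : (1 : ℝ) ≤ s := by exact_mod_cast hs
  have hkR : (1 : ℝ) ≤ k := by exact_mod_cast hk1
  obtain ⟨T, hT⟩ : ∃ T, T = 2 ^ 10 * s * k * b ^ 2 * L := ⟨_, rfl⟩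
  rw [← hT] at hD
  have hT1 : 1 ≤ T := by rw [hT]; exact Nat.one_le_iff_ne_zero.mpr (by positivity)
  have hv12 : 1 < v ^ 12 := Nat.one_lt_pow (by norm_num) (by omega)
  have hD1 : 1 ≤ D := by
    by_contra h
    have hD0 : D = 0 := by omega
    rw [hD0, pow_zero, pow_zero] at hD
    omega
  have hTv : T ≤ v := by
    have h1 : T ^ D ≤ v ^ D := by
      refine le_trans ?_ hD
      exact Nat.le_mul_of_pos_left _ (by omega)
    exact (Nat.pow_le_pow_iff_left (by omega)).mp h1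
  have hκk : κ ≤ k := by
    calc κ ≤ κ ^ D := Nat.le_self_pow (by omega) κ
      _ = 1 * κ ^ D := (one_mul _).symm
      _ ≤ L * κ ^ D := Nat.mul_le_mul_right _ (by omega)
      _ ≤ k := hk
  have hkT : k ≤ T := by
    rw [hT]
    calc k = 1 * 1 * k * 1 * 1 := by ring
      _ ≤ 2 ^ 10 * s * k * b ^ 2 * L := by
        gcongr
        · norm_num
        · exact Nat.one_le_pow _ _ (by omega)
        · omega
  -- the parameters
  obtain ⟨R, hR⟩ : ∃ R, R = 10 * b * L := ⟨_, rfl⟩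
  obtain ⟨q, hq⟩ : ∃ q, q = v / s := ⟨_, rfl⟩
  obtain ⟨A, hA⟩ : ∃ A, A = 16 * b * R := ⟨_, rfl⟩
  have hA' : A = 160 * b ^ 2 * L := by rw [hA, hR]; ring
  have hA1 : 1 ≤ A := by rw [hA']; exact Nat.one_le_iff_ne_zero.mpr (by positivity)
  have hR1 : 1 ≤ R := by rw [hR]; exact Nat.one_le_iff_ne_zero.mpr (by positivity)
  have hsq : s * q ≤ v := by rw [hq]; exact Nat.mul_div_le v s
  have hvq : v < s * (q + 1) := by rw [hq]; exact Nat.lt_mul_div_succ v (by omega)
  have hkA1 : 1 ≤ k * A := Nat.one_le_iff_ne_zero.mpr (by positivity)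
  have hkAq : k * A ≤ q := by
    rw [hq, Nat.le_div_iff_mul_le (by omega)]
    refine le_trans ?_ hTv
    rw [hT, hA']
    calc k * (160 * b ^ 2 * L) * s = 160 * s * k * b ^ 2 * L := by ring
      _ ≤ 2 ^ 10 * s * k * b ^ 2 * L := by
        gcongr
        norm_num
  have hAq : A ≤ q := by
    refine le_trans ?_ hkAq
    exact Nat.le_mul_of_pos_left _ (by omega)
  obtain ⟨B, hB⟩ : ∃ B, B = q / (k * A) := ⟨_, rfl⟩
  have hB1 : 1 ≤ B := by rw [hB]; exact Nat.div_pos hkAq (by omega)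
  have hBq : B * (k * A) ≤ q := by rw [hB]; exact Nat.div_mul_le_self _ _
  have hqB : q < k * A * (B + 1) := by rw [hB]; exact Nat.lt_mul_div_succ q (by omega)
  have hq1 : 1 ≤ q := hA1.trans hAq
  have h2 : v < 2 * s * q := by
    calc v < s * (q + 1) := hvq
      _ ≤ s * (q + q) := by gcongr
      _ = 2 * s * q := by ring
  have hvT : v ≤ T * B := by
    have h3 : q ≤ 2 * (k * A) * B := by
      calc q ≤ k * A * (B + 1) := hqB.le
        _ ≤ k * A * (B + B) := by gcongr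
        _ = 2 * (k * A) * B := by ring
    calc v ≤ 2 * s * q := h2.le
      _ ≤ 2 * s * (2 * (k * A) * B) := by gcongr
      _ = 640 * s * k * b ^ 2 * L * B := by rw [hA']; ring
      _ ≤ 2 ^ 10 * s * k * b ^ 2 * L * B := by gcongr; norm_num
      _ = T * B := by rw [hT]
  have hvB : v ^ 12 ≤ B ^ D := by
    have h3 : v ^ 12 * T ^ D ≤ B ^ D * T ^ D := by
      calc v ^ 12 * T ^ D ≤ v ^ D := hD
        _ ≤ (T * B) ^ D := Nat.pow_le_pow_left hvT D
        _ = B ^ D * T ^ D := by rw [mul_pow, mul_comm]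
    exact Nat.le_of_mul_le_mul_right h3 (by positivity)
  have h3 : v ^ 2 < (2 * s * q) ^ 2 := Nat.pow_lt_pow_left h2 (by norm_num)
  have h4 : (2 * s * q) ^ 2 = 4 * s ^ 2 * q ^ 2 := by ring
  have h3R : (v : ℝ) ^ 2 ≤ 4 * s ^ 2 * q ^ 2 := by
    rw [h4] at h3
    exact_mod_cast h3.le
  obtain ⟨Y, hY⟩ : ∃ Y, Y = 6 * k * A ^ 2 := ⟨_, rfl⟩
  have hY1 : 1 ≤ Y := by rw [hY]; exact Nat.one_le_iff_ne_zero.mpr (by positivity)
  have hY2 : Y = 153600 * k * b ^ 4 * L ^ 2 := by rw [hY, hA']; ring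
  have hYR : (Y : ℝ) = 153600 * k * b ^ 4 * L ^ 2 := by rw [hY2]; push_cast; ring
  rcases lt_or_ge (q ^ 2) Y with hqY | hqY
  · -- small q
    obtain ⟨Dd, hD0, hDs⟩ := exists_pt v
    refine ⟨Dd, hD0, hDs, fun S M c o hS hM => ?_⟩
    have hMR : (1 : ℝ) ≤ M := by exact_mod_cast hM1 hM
    have e1 : 1 - 2 * ∑ x, Dd x * eg s k x (val c x o) ≤ 1 := by
      have : 0 ≤ ∑ x, Dd x * eg s k x (val c x o) :=
        Finset.sum_nonneg fun x _ => mul_nonneg (hD0 x) (eg_nonneg _ _ _ _)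
      linarith
    have e2 : (q : ℝ) ^ 2 ≤ Y := by exact_mod_cast hqY.le
    calc (v : ℝ) ^ 2 * (1 - 2 * ∑ x, Dd x * eg s k x (val c x o))
        ≤ (v : ℝ) ^ 2 * 1 := mul_le_mul_of_nonneg_left e1 (by positivity)
      _ = (v : ℝ) ^ 2 := mul_one _
      _ ≤ 4 * s ^ 2 * q ^ 2 := h3R
      _ ≤ 4 * s ^ 2 * Y := by gcongr
      _ = 614400 * 1 * s ^ 2 * k * b ^ 4 * (L ^ 2 * 1) := by rw [hYR]; ring
      _ < 2 ^ 28 * 1 * s ^ 2 * k * b ^ 4 * (L ^ 2 * 1) := by
          gcongr
          norm_num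
      _ ≤ 2 ^ 28 * M * s ^ 2 * k * b ^ 4 * (L ^ 2 * L) := by
          gcongr
      _ = 2 ^ 28 * M * s ^ 2 * k * b ^ 4 * L ^ 3 := by ring
  · obtain ⟨K', hK1, hK2⟩ := exists_scale Y (q ^ 2) hY1 hqY
    have hqv : q ≤ v := by rw [hq]; exact Nat.div_le_self v s
    have hK'L : K' + 1 ≤ 2 * L := by
      have h1 : 2 ^ K' ≤ q ^ 2 := by
        calc 2 ^ K' = 2 ^ K' * 1 := by ring
          _ ≤ 2 ^ K' * Y := Nat.mul_le_mul_left _ hY1
          _ ≤ q ^ 2 := hK1
      have h2 : q ^ 2 < 2 ^ (2 * L) := by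
        calc q ^ 2 ≤ v ^ 2 := Nat.pow_le_pow_left hqv 2
          _ < (2 ^ L) ^ 2 := Nat.pow_lt_pow_left hvL (by norm_num)
          _ = 2 ^ (2 * L) := by rw [← pow_mul, mul_comm]
      have h3 : 2 ^ K' < 2 ^ (2 * L) := h1.trans_lt h2
      have := (Nat.pow_lt_pow_iff_right (by norm_num : 1 < 2)).mp h3
      omega
    have hSb : 2 ^ b - 2 + 1 ≤ 2 ^ b := by
      have : 2 ^ 2 ≤ 2 ^ b := Nat.pow_le_pow_right (by norm_num) hb2
      omega
    have P : ParB v s q b R K' D B L k (2 ^ b - 2) := by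
      refine ⟨hv, hb2, hR1, hs, hD1, ?_, hsq, hvL, ?_, ?_, hvB, ?_, by omega, ?_⟩
      · rw [← hA]; exact hAq
      · rw [← hκ]; exact hk
      · rw [← hA, mul_assoc]; exact hBq
      · rw [← hA, ← hY]; exact hK1
      · exact par_exp hb2 hL2 hvL (by rw [← hκ]; exact (hκk.trans hkT).trans hTv) hK'L hSb hR
    obtain ⟨Dd, hD0, hDs, hkey⟩ := gap_avg I P (by omega)
    refine ⟨Dd, hD0, hDs, fun S M c o hS hM => ?_⟩
    have hMR : (1 : ℝ) ≤ M := by exact_mod_cast hM1 hM
    have key := hkey S M c o (by rw [hb, pow_succ]; omega) hM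
    generalize 1 - 2 * ∑ x, Dd x * eg s k x (val c x o) = α at key ⊢
    have hpos : (0 : ℝ) < 2 ^ 28 * M * s ^ 2 * k * b ^ 4 * L ^ 3 := by positivity
    rcases le_or_gt α 0 with hα | hα
    · exact lt_of_le_of_lt (mul_nonpos_of_nonneg_of_nonpos (by positivity) hα) hpos
    have h1 : (2 : ℝ) ^ K' * α ≤ 89 * (L * M) := by
      have e1 : ((K' + 1 : ℕ) : ℝ) ≤ 2 * L := by exact_mod_cast hK'L
      have e2 : 11 * ((K' + 1 : ℕ) : ℝ) * (4 * M) ≤ 11 * (2 * L) * (4 * M) := by gcongr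
      have e3 : (1 : ℝ) ≤ L * M := one_le_mul_of_one_le_of_one_le hLR hMR
      linarith
    have h5 : (q : ℝ) ^ 2 ≤ 2 ^ (K' + 1) * Y := by exact_mod_cast hK2.le
    calc (v : ℝ) ^ 2 * α ≤ 4 * s ^ 2 * q ^ 2 * α := mul_le_mul_of_nonneg_right h3R hα.le
      _ ≤ 4 * s ^ 2 * (2 ^ (K' + 1) * Y) * α := by gcongr
      _ = 8 * s ^ 2 * Y * (2 ^ K' * α) := by rw [pow_succ]; ring
      _ ≤ 8 * s ^ 2 * Y * (89 * (L * M)) := mul_le_mul_of_nonneg_left h1 (by positivity)
      _ = 109363200 * M * s ^ 2 * k * b ^ 4 * L ^ 3 := by rw [hYR]; ring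
      _ < 2 ^ 28 * M * s ^ 2 * k * b ^ 4 * L ^ 3 := by
          gcongr
          norm_num

end Pool.Agent.AV
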