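import Pool.Agent.Work.MP_71c844_lc.EV.Core

/-!
# Block AV: average-case forms

The hard distribution: the random state `x` of the sprinkling process at a random time, or the
union of `x` and of a random planted set.
-/

namespace Pool.Agent.AV

open Finset Pool.Agent.LayCirc
open Pool.Agent.NegLim (Tn Tn_zero Tn_succ Tn_add Tn_mono Tn_const Tn_fadd Tn_smul Tn_sum dens
  Dich dens_le dens_nonneg Tn_ind sep_adaptive)

set_option linter.unusedSectionVars false

variable {E : Type*} [Fintype E] [DecidableEq E]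

section ex

variable {U : Type*} [Fintype U]

/-- The expected value of `φ` for the hard distribution. -/
noncomputable def Ex (δ : ℝ) (n : ℕ) (Y : U → Finset E) (φ : Finset E → ℝ) : ℝ :=
  (∑ s ∈ range n, (Tn δ s φ ∅ + (∑ u, Tn δ s (fun x => φ (x ∪ Y u)) ∅) / Fintype.card U)) / (2 * n)

lemma Ex_sum {ι : Type*} (δ : ℝ) (n : ℕ) (Y : U → Finset E) (s : Finset ι)
    (φ : ι → Finset E → ℝ) :
    Ex δ n Y (fun x => ∑ i ∈ s, φ i x) = ∑ i ∈ s, Ex δ n Y (φ i) := by
  unfold Ex
  rw [← Finset.sum_div]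
  congr 1
  rw [Finset.sum_comm]
  refine Finset.sum_congr rfl fun t _ => ?_
  rw [Finset.sum_add_distrib, Tn_sum, ← Finset.sum_div]
  congr 2
  rw [Finset.sum_comm]
  refine Finset.sum_congr rfl fun u _ => ?_
  rw [Tn_sum]

lemma Ex_smul (δ : ℝ) (n : ℕ) (Y : U → Finset E) (c : ℝ) (φ : Finset E → ℝ) :
    Ex δ n Y (fun x => c * φ x) = c * Ex δ n Y φ := by
  unfold Ex
  rw [← mul_div_assoc, Finset.mul_sum]
  congr 1
  refine Finset.sum_congr rfl fun t _ => ?_
  rw [Tn_smul, mul_add, ← mul_div_assoc, Finset.mul_sum]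
  congr 2
  refine Finset.sum_congr rfl fun u _ => ?_
  rw [Tn_smul]

lemma Ex_const [Nonempty U] (δ : ℝ) {n : ℕ} (hn : 1 ≤ n) (Y : U → Finset E) (c : ℝ) :
    Ex δ n Y (fun _ => c) = c := by
  unfold Ex
  have hU : (Fintype.card U : ℝ) ≠ 0 := by
    have : 0 < Fintype.card U := Fintype.card_pos
    positivity
  have hn' : (n : ℝ) ≠ 0 := by positivity
  simp only [Tn_const, Finset.sum_const, Finset.card_univ, nsmul_eq_mul, card_range]
  field_simp
  ring

lemma Ex_nonneg {δ : ℝ} (h0 : 0 ≤ δ) (h1 : δ ≤ 1) (n : ℕ) (Y : U → Finset E) {φ : Finset E → ℝ}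
    (h : ∀ x, 0 ≤ φ x) : 0 ≤ Ex δ n Y φ := by
  unfold Ex
  apply div_nonneg _ (by positivity)
  have key : ∀ (ψ : Finset E → ℝ), (∀ x, 0 ≤ ψ x) → ∀ s, 0 ≤ Tn δ s ψ ∅ := by
    intro ψ hψ s
    have := Tn_mono h0 h1 hψ s ∅
    rwa [Tn_const] at this
  refine Finset.sum_nonneg fun s _ => add_nonneg (key _ h s) (div_nonneg ?_ (by positivity))
  exact Finset.sum_nonneg fun u _ => key _ (fun x => h _) s

variable {ι : Type} [Fintype ι] [DecidableEq ι]

open Classical in
/-- The hard distribution on the inputs. -/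
lemma exists_dist [Nonempty U] {δ : ℝ} (h0 : 0 ≤ δ) (h1 : δ ≤ 1) {n : ℕ} (hn : 1 ≤ n)
    (Y : U → Finset E) (π : ι → Bool ⊕ E) :
    ∃ D : (ι → Bool) → ℝ, (∀ x, 0 ≤ D x) ∧ ∑ x, D x = 1 ∧
      (∀ h : (ι → Bool) → ℝ, ∑ x, D x * h x = Ex δ n Y (fun X => h (inp π X))) ∧
      ∀ x, D x ≠ 0 → ∃ X, x = inp π X := by
  have key : ∀ h : (ι → Bool) → ℝ,
      ∑ x, Ex δ n Y (fun X => if inp π X = x then (1 : ℝ) else 0) * h x =
        Ex δ n Y (fun X => h (inp π X)) := by
    intro h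
    have e1 : ∀ x, Ex δ n Y (fun X => if inp π X = x then (1 : ℝ) else 0) * h x =
        Ex δ n Y (fun X => h x * if inp π X = x then (1 : ℝ) else 0) := by
      intro x
      rw [Ex_smul, mul_comm]
    simp_rw [e1]
    rw [← Ex_sum]
    congr 1
    funext X
    rw [Finset.sum_eq_single (inp π X)]
    · simp
    · intro x _ hx
      rw [if_neg (Ne.symm hx), mul_zero]
    · intro hx
      exact absurd (mem_univ _) hx
  refine ⟨fun x => Ex δ n Y (fun X => if inp π X = x then (1 : ℝ) else 0), ?_, ?_, key, ?_⟩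
  · intro x
    exact Ex_nonneg h0 h1 n Y fun X => by split_ifs <;> norm_num
  · have := key (fun _ => 1)
    simp only [mul_one] at this
    rw [this, Ex_const δ hn]
  · intro x hx
    by_contra hcon
    push Not at hcon
    apply hx
    have : (fun X => if inp π X = x then (1 : ℝ) else 0) = fun _ => 0 := by
      funext X
      rw [if_neg (fun h => hcon X h.symm)]
    show Ex δ n Y (fun X => if inp π X = x then (1 : ℝ) else 0) = 0
    rw [this, Ex_const δ hn]

end ex

section main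

variable {U : Type*} [Fintype U] [Nonempty U]

open Classical in
/-- **The abstract average-case bound.** -/
theorem avg_abs {J H : Type*} [Fintype J] {b K : ℕ} {q ε η : ℝ} {Y : U → Finset E} (hb : 1 ≤ b)
    (hq : 16 * b * 2 ^ (K + 2) ≤ q) (hε0 : 0 ≤ ε) (hmε : 2 ^ (K + 2) * ε ≤ 1)
    (R P : J → ℕ) (hR : ∀ j, 1 ≤ R j) (hP1 : ∀ j, 1 ≤ P j)
    (st : J → Finset E → H) (G : J → H → Finset E → Bool)
    (hG : ∀ j h, Dich (K + 2) (R j) b q ε Y (G j h))
    (hP : ∀ j, ∀ x : ℕ → Finset E, Monotone x → ∀ m,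
      ((range m).image (fun i => st j (x i))).card ≤ P j)
    (A : Finset E → Bool) (e F : Finset E → ℝ) (he0 : ∀ x, 0 ≤ e x) (hF0 : ∀ x, 0 ≤ F x)
    (h1 : ∀ x, A x = true → 1 ≤ F x + e x)
    (h2 : ∀ x u, A (x ∪ Y u) = false → 1 ≤ e (x ∪ Y u))
    (h3 : ∀ x u, A x = false → A (x ∪ Y u) = true →
      ∃ j, G j (st j x) x = false ∧ G j (st j x) (x ∪ Y u) = true)
    (hFs : ∀ s < 2 ^ K, Tn (1 / (2 : ℝ) ^ (K + 2)) s F ∅ ≤ η) :
    2 ^ (K + 2) * (1 - 2 * Ex (1 / (2 : ℝ) ^ (K + 2)) (2 ^ K) Y e) ≤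
      44 * ((K + 2 : ℕ) : ℝ) * ((∑ j, R j * P j : ℕ) : ℝ) + 2 ^ (K + 2) * η := by
  set δ : ℝ := 1 / (2 : ℝ) ^ (K + 2) with hδ
  have hM : (0 : ℝ) < 2 ^ (K + 2) := by positivity
  have h0' : 0 ≤ δ := by positivity
  have h1' : δ ≤ 1 := by
    rw [hδ, div_le_one hM]; exact one_le_pow₀ (by norm_num)
  have hUpos : (0 : ℝ) < Fintype.card U := by exact_mod_cast Fintype.card_pos
  obtain ⟨m, hmdef⟩ : ∃ m, m = 2 ^ (K + 1) := ⟨_, rfl⟩
  have hm : 2 ^ (K + 2) = 2 * m := by rw [hmdef, ← pow_succ']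
  have hmε' : (m : ℝ) * ε ≤ 1 := by
    have e2 : (2 : ℝ) ^ (K + 2) = 2 * m := by exact_mod_cast hm
    rw [e2] at hmε
    have e5 : 0 ≤ (m : ℝ) * ε := by positivity
    linarith
  let ψ : J → Finset E → ℝ := fun j x =>
    (if G j (st j x) x = true then (0 : ℝ) else 1) *
        (((univ.filter (fun u => G j (st j x) (x ∪ Y u) = true)).card : ℝ) / Fintype.card U)
  have hψ0 : ∀ j x, 0 ≤ ψ j x := by
    intro j x
    simp only [ψ]
    apply mul_nonneg
    · split_ifs <;> norm_num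
    · positivity
  -- the pointwise bound
  have hcov : ∀ x, 1 ≤ F x + ∑ j, ψ j x + (e x + (∑ u, e (x ∪ Y u)) / Fintype.card U) := by
    intro x
    have hs0 : 0 ≤ ∑ j, ψ j x := Finset.sum_nonneg fun j _ => hψ0 j x
    have hu0 : 0 ≤ (∑ u, e (x ∪ Y u)) / Fintype.card U :=
      div_nonneg (Finset.sum_nonneg fun u _ => he0 _) hUpos.le
    rcases hA : A x with _ | _
    · have hcount : (Fintype.card U : ℝ) ≤ ∑ j, (if G j (st j x) x = true then (0 : ℝ) else 1) *
          ((univ.filter (fun u => G j (st j x) (x ∪ Y u) = true)).card : ℝ) +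
          ∑ u, e (x ∪ Y u) := by
        have e1 : ∀ u : U, (1 : ℝ) ≤ ∑ j, (if G j (st j x) x = true then (0 : ℝ) else 1) *
            (if G j (st j x) (x ∪ Y u) = true then (1 : ℝ) else 0) + e (x ∪ Y u) := by
          intro u
          have hnn : ∀ j, (0 : ℝ) ≤ (if G j (st j x) x = true then (0 : ℝ) else 1) *
                (if G j (st j x) (x ∪ Y u) = true then (1 : ℝ) else 0) := by
            intro j; split_ifs <;> norm_num
          rcases hAu : A (x ∪ Y u) with _ | _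
          · have := h2 x u hAu
            have := Finset.sum_nonneg fun j (_ : j ∈ (univ : Finset J)) => hnn j
            linarith
          · obtain ⟨j, hi1, hi2⟩ := h3 x u hA hAu
            have s1 := Finset.single_le_sum (f := fun j =>
              (if G j (st j x) x = true then (0 : ℝ) else 1) *
              (if G j (st j x) (x ∪ Y u) = true then (1 : ℝ) else 0))
              (fun j _ => hnn j) (mem_univ j)
            have s2 : (1 : ℝ) ≤ ∑ j, (if G j (st j x) x = true then (0 : ℝ) else 1) *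
                (if G j (st j x) (x ∪ Y u) = true then (1 : ℝ) else 0) := by
              refine le_trans (le_of_eq ?_) s1
              simp only [hi1, hi2]
              norm_num
            have := he0 (x ∪ Y u)
            linarith
        have e2 := Finset.sum_le_sum (fun u (_ : u ∈ (univ : Finset U)) => e1 u)
        rw [Finset.sum_const, Finset.card_univ, nsmul_eq_mul, mul_one, Finset.sum_add_distrib,
          Finset.sum_comm] at e2
        refine e2.trans (le_of_eq ?_)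
        congr 1
        refine Finset.sum_congr rfl fun j _ => ?_
        rw [← Finset.mul_sum]
        congr 1
        rw [Finset.sum_boole]
      have e3 : ∑ j, ψ j x = (∑ j, (if G j (st j x) x = true then (0 : ℝ) else 1) *
          ((univ.filter (fun u => G j (st j x) (x ∪ Y u) = true)).card : ℝ))
            / Fintype.card U := by
        rw [Finset.sum_div]
        refine Finset.sum_congr rfl fun j _ => ?_
        simp only [ψ]
        ring
      have e4 : 1 ≤ ∑ j, ψ j x + (∑ u, e (x ∪ Y u)) / Fintype.card U := by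
        rw [e3, ← add_div, le_div_iff₀ hUpos, one_mul]
        exact hcount
      linarith [hF0 x, he0 x]
    · have := h1 x hA
      linarith
  -- each query
  have hψ : ∀ j, ∑ s ∈ range (2 ^ K), Tn δ s (ψ j) ∅ ≤
      11 * ((K + 2 : ℕ) : ℝ) * R j * (P j : ℕ) := by
    intro j
    refine le_trans ?_ (sep_adaptive (P := P j) (m := m) hb hm (by omega) (hR j) (hP1 j) hq hε0
      hmε' (st j) (G j) (hG j) ?_)
    · apply Finset.sum_le_sum_of_subset_of_nonneg
      · apply Finset.range_mono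
        rw [hmdef]
        exact Nat.pow_le_pow_right (by norm_num) (by omega)
      · intro s _ _
        have := Tn_mono h0' h1' (hψ0 j) s ∅
        rw [Tn_const] at this
        exact this
    · intro s hs
      refine le_trans (le_of_eq ?_) (hP j s hs m)
      congr!
  -- summation
  have htot : ((2 ^ K : ℕ) : ℝ) ≤ ∑ s ∈ range (2 ^ K), Tn δ s F ∅ +
      ∑ j, ∑ s ∈ range (2 ^ K), Tn δ s (ψ j) ∅ +
      ∑ s ∈ range (2 ^ K), (Tn δ s e ∅ + (∑ u, Tn δ s (fun x => e (x ∪ Y u)) ∅) /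
        Fintype.card U) := by
    rw [Finset.sum_comm (s := univ), ← Finset.sum_add_distrib, ← Finset.sum_add_distrib]
    have e1 : ∀ s ∈ range (2 ^ K), (1 : ℝ) ≤ Tn δ s F ∅ + ∑ j, Tn δ s (ψ j) ∅ +
        (Tn δ s e ∅ + (∑ u, Tn δ s (fun x => e (x ∪ Y u)) ∅) / Fintype.card U) := by
      intro s _
      have := Tn_mono h0' h1' hcov s ∅
      rw [Tn_const, Tn_fadd, Tn_fadd, Tn_fadd, Tn_sum] at this
      have e2 : Tn δ s (fun x => (∑ u, e (x ∪ Y u)) / Fintype.card U) ∅ =
          (∑ u, Tn δ s (fun x => e (x ∪ Y u)) ∅) / Fintype.card U := by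
        have e3 : (fun x => (∑ u, e (x ∪ Y u)) / (Fintype.card U : ℝ)) =
            fun x => (1 / (Fintype.card U : ℝ)) * ∑ u, e (x ∪ Y u) := by
          funext x; ring
        rw [e3, Tn_smul, Tn_sum]
        ring
      rw [e2] at this
      exact this
    have := Finset.sum_le_sum e1
    simpa using this
  have e5 := Finset.sum_le_sum (fun s (hs : s ∈ range (2 ^ K)) => hFs s (Finset.mem_range.mp hs))
  rw [Finset.sum_const, card_range, nsmul_eq_mul] at e5
  have e6 : ∑ j, ∑ s ∈ range (2 ^ K), Tn δ s (ψ j) ∅ ≤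
      11 * ((K + 2 : ℕ) : ℝ) * ((∑ j, R j * P j : ℕ) : ℝ) := by
    refine (Finset.sum_le_sum fun j _ => hψ j).trans (le_of_eq ?_)
    rw [Nat.cast_sum, Finset.mul_sum]
    refine Finset.sum_congr rfl fun j _ => ?_
    push_cast
    ring
  have e7 : ∑ s ∈ range (2 ^ K), (Tn δ s e ∅ + (∑ u, Tn δ s (fun x => e (x ∪ Y u)) ∅) /
      Fintype.card U) = 2 * ((2 ^ K : ℕ) : ℝ) * Ex δ (2 ^ K) Y e := by
    unfold Ex
    have : (2 * ((2 ^ K : ℕ) : ℝ)) ≠ 0 := by positivity
    rw [mul_div_cancel₀ _ this]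
  rw [e7] at htot
  have e8 : (2 : ℝ) ^ (K + 2) = 4 * ((2 ^ K : ℕ) : ℝ) := by push_cast; ring
  rw [e8]
  nlinarith [htot, e5, e6]

/-- The planted function is rarely true for small densities. -/
lemma rare {K N : ℕ} {Y : U → Finset E} (hN : ∀ u, N ≤ (Y u).card)
    (hU : 2 * Fintype.card U ≤ 2 ^ N) (F : Finset E → ℝ)
    (hF : ∀ x, F x ≤ ∑ u : U, (if Y u ⊆ x then (1 : ℝ) else 0)) (s : ℕ) (hs : s < 2 ^ K) :
    Tn (1 / (2 : ℝ) ^ (K + 2)) s F ∅ ≤ (1 / 2) ^ (N + 1) := by
  set δ : ℝ := 1 / (2 : ℝ) ^ (K + 2) with hδ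
  have hM : (0 : ℝ) < 2 ^ (K + 2) := by positivity
  have h0' : 0 ≤ δ := by positivity
  have h1' : δ ≤ 1 := by
    rw [hδ, div_le_one hM]; exact one_le_pow₀ (by norm_num)
  have hdens : dens δ s ≤ 1 / 4 := by
    refine (dens_le h0' h1' s).trans ?_
    have : (s : ℝ) ≤ 2 ^ K := by exact_mod_cast hs.le
    rw [hδ, mul_one_div, div_le_div_iff₀ (by positivity) (by norm_num), pow_add]
    linarith
  have hd0 := dens_nonneg h0' h1' s
  have e1 : Tn δ s F ∅ ≤ ∑ u : U, dens δ s ^ (Y u).card := by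
    refine (Tn_mono h0' h1' hF s ∅).trans (le_of_eq ?_)
    rw [Tn_sum]
    refine Finset.sum_congr rfl fun u _ => ?_
    rw [Tn_ind, Finset.sdiff_empty]
  refine e1.trans ?_
  have e2 : ∀ u ∈ (univ : Finset U), dens δ s ^ (Y u).card ≤ (1 / 4) ^ N := by
    intro u _
    calc dens δ s ^ (Y u).card ≤ (1 / 4) ^ (Y u).card := pow_le_pow_left₀ hd0 hdens _
      _ ≤ (1 / 4) ^ N := pow_le_pow_of_le_one (by norm_num) (by norm_num) (hN u)
  refine (Finset.sum_le_sum e2).trans ?_
  rw [Finset.sum_const, Finset.card_univ, nsmul_eq_mul]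
  have e3 : (2 : ℝ) * Fintype.card U ≤ 2 ^ N := by exact_mod_cast hU
  have e4 : (1 / 4 : ℝ) ^ N = (1 / 2) ^ N * (1 / 2) ^ N := by rw [← mul_pow]; norm_num
  have e5 : (1 / 2 : ℝ) ^ N * 2 ^ N = 1 := by rw [← mul_pow]; norm_num
  have e6 : (0 : ℝ) < (1 / 2) ^ N := by positivity
  rw [e4, pow_succ]
  nlinarith

end main

end Pool.Agent.AV
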