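import Pool.Agent.Work.MP_71c844_lc.AV.Abs

/-!
# Block AV: the abstract average-case bounds for circuits
-/

namespace Pool.Agent.AV

open Finset Pool.Agent.LayCirc
open Pool.Agent.NegLim (Dich Tn lowSets gval pull mapVar orTop)

set_option linter.unusedSectionVars false

variable {ι : Type} {s a : ℕ} {E : Type*} [Fintype E] [DecidableEq E]

open Classical in
/-- The indicator function of the errors. -/
noncomputable def er (p q : Prop) : ℝ := if (p ↔ q) then 0 else 1

lemma er_nonneg (p q : Prop) : 0 ≤ er p q := by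
  unfold er; split_ifs <;> norm_num

lemma er_le_one (p q : Prop) : er p q ≤ 1 := by
  unfold er; split_ifs <;> norm_num

lemma er_one {p q : Prop} (h : ¬ (p ↔ q)) : er p q = 1 := by
  unfold er; rw [if_neg h]

lemma er_zero {p q : Prop} (h : p ↔ q) : er p q = 0 := by
  unfold er; rw [if_pos h]

lemma card_pat (inst : DecidableEq (Fin s → Bool)) (π : ι → Bool ⊕ E) (c : Circuit ι s)
    (x : ℕ → Finset E) (m P : ℕ)
    (h : (Set.range (fun i => pattern c (inp π (x i)))).ncard ≤ P) :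
    (@Finset.image ℕ (Fin s → Bool) inst (fun i => pat π c (x i)) (range m)).card ≤ P := by
  classical
  refine le_trans ?_ h
  rw [← Set.ncard_coe_finset]
  let ext : ({j : Fin s // Fed c j} → Bool) → (Fin s → Bool) :=
    fun f j => if h : Fed c j then f ⟨j, h⟩ else false
  refine le_trans (Set.ncard_le_ncard
    (t := ext '' (Set.range (fun i => pattern c (inp π (x i)))))
    ?_ (Set.toFinite _)) (Set.ncard_image_le (Set.toFinite _))
  intro f hf
  obtain ⟨i, _, rfl⟩ := (@Finset.mem_image _ _ inst _ _ _).mp (Finset.mem_coe.mp hf)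
  refine ⟨pattern c (inp π (x i)), ⟨i, rfl⟩, ?_⟩
  funext j
  simp only [ext, pattern, pat]
  by_cases h : Fed c j
  · rw [dif_pos h, if_pos h]
  · rw [dif_neg h, if_neg h]

variable {U : Type*} [Fintype U] [Nonempty U]

open Classical in
/-- The functions `e` and `F` for a decision problem which is the planted function. -/
lemma ef {Y : U → Finset E} {π : ι → Bool ⊕ E} {cl : (ι → Bool) → Prop}
    (hcl : ∀ X : Finset E, cl (inp π X) ↔ ∃ u, Y u ⊆ X) (acc : (ι → Bool) → Prop) :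
    (∀ X, acc (inp π X) → (1 : ℝ) ≤ (if ∃ u, Y u ⊆ X then 1 else 0) +
      er (acc (inp π X)) (cl (inp π X))) ∧
    (∀ X u, ¬ acc (inp π (X ∪ Y u)) →
      (1 : ℝ) ≤ er (acc (inp π (X ∪ Y u))) (cl (inp π (X ∪ Y u)))) := by
  constructor
  · intro X hX
    by_cases h : ∃ u, Y u ⊆ X
    · rw [if_pos h]
      linarith [er_nonneg (acc (inp π X)) (cl (inp π X))]
    · rw [if_neg h, er_one, zero_add]
      rw [hcl X]
      exact fun h1 => h (h1.mp hX)
  · intro X u hX
    rw [er_one]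
    intro h1
    exact hX (h1.mpr ((hcl _).mpr ⟨u, Finset.subset_union_right⟩))

open Classical in
lemma planted_le (Y : U → Finset E) (x : Finset E) :
    (if ∃ u, Y u ⊆ x then (1 : ℝ) else 0) ≤ ∑ u : U, (if Y u ⊆ x then (1 : ℝ) else 0) := by
  split_ifs with h
  · obtain ⟨u, hu⟩ := h
    have := Finset.single_le_sum (f := fun u : U => if Y u ⊆ x then (1 : ℝ) else 0)
      (fun u _ => by
        show (0 : ℝ) ≤ if Y u ⊆ x then (1 : ℝ) else 0
        split_ifs <;> norm_num) (Finset.mem_univ u)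
    simpa [hu] using this
  · apply Finset.sum_nonneg; intro u _; split_ifs <;> norm_num

open Classical in
/-- The abstract average-case bound for circuits with guess bits. -/
theorem guess_avg {b ℓ K R N P : ℕ} {q : ℝ} {Y : U → Finset E} (hb : 1 ≤ b)
    (hℓ : 2 * b < 2 ^ ℓ) (hq : 64 * 2 ^ (K + 2) ≤ q)
    (hY : ∀ A : Finset E, A.card ≤ 2 * b →
      ((univ.filter (fun u => A ⊆ Y u)).card : ℝ) ≤ Fintype.card U * (1 / q) ^ A.card)
    (hN : ∀ u, N ≤ (Y u).card) (hU : 2 * Fintype.card U ≤ 2 ^ N)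
    (π : ι → Bool ⊕ E) (c : Circuit (ι ⊕ (Fin a × Bool)) s) (o : Fin s)
    (hfree : ∀ j, Fed c j → ∀ (x : ι → Bool) (y y' : Fin a → Bool),
      val c (withGuess x y) j = val c (withGuess x y') j)
    {cl : (ι → Bool) → Prop} (hcl : ∀ X : Finset E, cl (inp π X) ↔ ∃ u, Y u ⊆ X)
    (hP1 : 1 ≤ P)
    (hP : ∀ x : ℕ → (ι → Bool), Monotone x →
      (Set.range (fun i => pattern c (withGuess (x i) fun _ => false))).ncard ≤ P)
    (hS : 2 * s ≤ 2 ^ b)
    (hSR : 2 ^ (K + 2) * (2 ^ a * ((2 * s + 1) * (lowSets E b).card)) ≤ 2 ^ R) (hR : 1 ≤ R)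
    (hℓ1 : 1 ≤ ℓ) :
    (2 : ℝ) ^ (K + 2) * (1 - 2 * Ex (1 / (2 : ℝ) ^ (K + 2)) (2 ^ K) Y
      (fun X => er (∀ y, val c (withGuess (inp π X) y) o = true) (cl (inp π X)))) ≤
      44 * ((K + 2 : ℕ) : ℝ) * ((ℓ * R * P : ℕ) : ℝ) + 2 ^ (K + 2) * (1 / 2) ^ (N + 1) := by
  set W : ℝ := ((lowSets E b).card : ℝ) with hW
  set ε : ℝ := (((2 * s : ℕ) : ℝ) + 1) * (W * (1 / 2) ^ R) with hε
  have hε0 : 0 ≤ ε := by positivity
  have hcardG : Fintype.card (Fin a → Bool) = 2 ^ a := by simp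
  have hmε : (2 : ℝ) ^ (K + 2) * (Fintype.card (Fin a → Bool) * ε) ≤ 1 := by
    have e1 : ((2 : ℝ) ^ (K + 2) * (2 ^ a * ((((2 * s : ℕ) : ℝ) + 1) * W))) ≤ 2 ^ R := by
      rw [hW]; exact_mod_cast hSR
    rw [hε, hcardG]
    have e4 : (1 / 2 : ℝ) ^ R = 1 / 2 ^ R := by rw [div_pow, one_pow]
    rw [e4]
    have : (2 : ℝ) ^ (K + 2) * (((2 ^ a : ℕ) : ℝ) *
        ((((2 * s : ℕ) : ℝ) + 1) * (W * (1 / 2 ^ R)))) =
        ((2 : ℝ) ^ (K + 2) * (2 ^ a * ((((2 * s : ℕ) : ℝ) + 1) * W))) / 2 ^ R := by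
      push_cast
      ring
    rw [this, div_le_one (by positivity)]
    exact e1
  -- the pattern does not depend on the guess
  have hpat : ∀ (X : Finset E) (y : Fin a → Bool),
      pat (gproj π y) c X = pat (gproj π fun _ => false) c X := by
    intro X y
    funext j
    unfold pat
    by_cases hj : Fed c j
    · rw [if_pos hj, if_pos hj, inp_gproj, inp_gproj]
      exact hfree j hj _ _ _
    · rw [if_neg hj, if_neg hj]
  obtain ⟨h1, h2⟩ := ef (Y := Y) (π := π) hcl (fun x => ∀ y, val c (withGuess x y) o = true)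
  have key := avg_abs (E := E) (U := U) (J := Unit) (H := Fin s → Bool) (b := 4)
    (K := K) (q := q) (ε := Fintype.card (Fin a → Bool) * ε)
    (η := (1 / 2) ^ (N + 1)) (Y := Y)
    (by norm_num) (by push_cast; linarith) (by positivity) hmε
    (fun _ => ℓ * R) (fun _ => P) (fun _ => Nat.one_le_iff_ne_zero.mpr (by positivity))
    (fun _ => hP1)
    (fun _ => pat (gproj π fun _ => false) c)
    (fun _ h x => decide (∀ y : Fin a → Bool, gval (qry (gproj π y) c o h) 0 x = true)) ?_ ?_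
    (fun X => decide (∀ y, val c (withGuess (inp π X) y) o = true))
    (fun X => er (∀ y, val c (withGuess (inp π X) y) o = true) (cl (inp π X)))
    (fun X => if ∃ u, Y u ⊆ X then 1 else 0) (fun X => er_nonneg _ _)
    (fun X => by split_ifs <;> norm_num)
    (fun X hX => h1 X (of_decide_eq_true hX)) (fun X u hX => h2 X u (of_decide_eq_false hX)) ?_ ?_
  · simpa using key
  · intro _ h
    apply Dich.all
    intro y
    have := Rec82.dich_circuit (E := E) (U := U) (b := b) (ℓ := ℓ) (K := K + 2) (R := R) (q := q)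
      (Y := Y) hb hℓ hq hY (qry (gproj π y) c o h) (numNot_qry (gproj π y) c o h) 0 (2 * s)
      (size_qry (gproj π y) c o h) hS
    exact this
  · intro _ x hx m
    refine card_pat _ (gproj π fun _ => false) c x m P ?_
    simp only [inp_gproj]
    exact hP (fun i => inp π (x i)) (by
      intro i j hij e
      show inp π (x i) e ≤ inp π (x j) e
      unfold inp pull
      rcases π e with b' | t
      · exact le_rfl
      · have := hx hij
        by_cases h : t ∈ x i
        · simp only [h, this h, le_refl]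
        · simp only [h, decide_false]
          exact Bool.false_le _)
  · intro x u hx hxu
    refine ⟨(), ?_, ?_⟩
    · have hxo := of_decide_eq_false hx
      push Not at hxo
      obtain ⟨y, hy⟩ := hxo
      rw [decide_eq_false_iff_not]
      intro hall
      have h1 := hall y
      have h2 := (pat_cover (gproj π y) c o x x (Finset.Subset.refl _)
        (by rw [inp_gproj]; exact Bool.eq_false_iff.mpr hy)).1
      rw [hpat x y] at h2
      rw [h2] at h1
      cases h1
    · rw [decide_eq_true_eq]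
      intro y
      have hZ : val c (inp (gproj π y) (x ∪ Y u)) o = true := by
        rw [inp_gproj]
        exact of_decide_eq_true hxu y
      rcases hv : val c (inp (gproj π y) x) o with _ | _
      · have h2 := (pat_cover (gproj π y) c o x (x ∪ Y u) Finset.subset_union_left hv).2 hZ
        rw [hpat x y] at h2
        exact h2
      · have h2 := gval_qry_of_output (gproj π y) c o x hv
        rw [hpat x y] at h2
        exact gval_qry_mono _ c o _ Finset.subset_union_left h2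
  · intro t ht
    exact rare hN hU _ (fun x => planted_le Y x) t ht

open Classical in
/-- The abstract average-case bound for patterns along sequences of projected inputs. -/
theorem pat_avg {b ℓ K R N P : ℕ} {q : ℝ} {Y : U → Finset E} (hb : 1 ≤ b)
    (hℓ : 2 * b < 2 ^ ℓ) (hq : 64 * 2 ^ (K + 2) ≤ q)
    (hY : ∀ A : Finset E, A.card ≤ 2 * b →
      ((univ.filter (fun u => A ⊆ Y u)).card : ℝ) ≤ Fintype.card U * (1 / q) ^ A.card)
    (hN : ∀ u, N ≤ (Y u).card) (hU : 2 * Fintype.card U ≤ 2 ^ N)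
    (π : ι → Bool ⊕ E) (c : Circuit ι s) (o : Fin s)
    {cl : (ι → Bool) → Prop} (hcl : ∀ X : Finset E, cl (inp π X) ↔ ∃ u, Y u ⊆ X)
    (hP1 : 1 ≤ P)
    (hP : ∀ X : ℕ → Finset E, Monotone X →
      (Set.range (fun i => pattern c (inp π (X i)))).ncard ≤ P)
    (hS : 2 * s ≤ 2 ^ b)
    (hSR : 2 ^ (K + 2) * ((2 * s + 1) * (lowSets E b).card) ≤ 2 ^ R) (hR : 1 ≤ R)
    (hℓ1 : 1 ≤ ℓ) :
    (2 : ℝ) ^ (K + 2) * (1 - 2 * Ex (1 / (2 : ℝ) ^ (K + 2)) (2 ^ K) Y
      (fun X => er (val c (inp π X) o = true) (cl (inp π X)))) ≤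
      44 * ((K + 2 : ℕ) : ℝ) * ((ℓ * R * P : ℕ) : ℝ) + 2 ^ (K + 2) * (1 / 2) ^ (N + 1) := by
  set W : ℝ := ((lowSets E b).card : ℝ) with hW
  set ε : ℝ := (((2 * s : ℕ) : ℝ) + 1) * (W * (1 / 2) ^ R) with hε
  have hε0 : 0 ≤ ε := by positivity
  have hmε : (2 : ℝ) ^ (K + 2) * ε ≤ 1 := by
    have e1 : ((2 : ℝ) ^ (K + 2) * ((((2 * s : ℕ) : ℝ) + 1) * W)) ≤ 2 ^ R := by
      rw [hW]; exact_mod_cast hSR
    rw [hε]
    have e4 : (1 / 2 : ℝ) ^ R = 1 / 2 ^ R := by rw [div_pow, one_pow]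
    rw [e4]
    have : (2 : ℝ) ^ (K + 2) * ((((2 * s : ℕ) : ℝ) + 1) * (W * (1 / 2 ^ R))) =
        ((2 : ℝ) ^ (K + 2) * ((((2 * s : ℕ) : ℝ) + 1) * W)) / 2 ^ R := by
      ring
    rw [this, div_le_one (by positivity)]
    exact e1
  obtain ⟨h1, h2⟩ := ef (Y := Y) (π := π) hcl (fun x => val c x o = true)
  have key := avg_abs (E := E) (U := U) (J := Unit) (H := Fin s → Bool) (b := 4)
    (K := K) (q := q) (ε := ε) (η := (1 / 2) ^ (N + 1)) (Y := Y)
    (by norm_num) (by push_cast; linarith) hε0 hmε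
    (fun _ => ℓ * R) (fun _ => P) (fun _ => Nat.one_le_iff_ne_zero.mpr (by positivity))
    (fun _ => hP1)
    (fun _ => pat π c) (fun _ h x => gval (qry π c o h) 0 x) ?_ ?_
    (fun X => val c (inp π X) o)
    (fun X => er (val c (inp π X) o = true) (cl (inp π X)))
    (fun X => if ∃ u, Y u ⊆ X then 1 else 0) (fun X => er_nonneg _ _)
    (fun X => by split_ifs <;> norm_num)
    (fun X hX => h1 X hX) (fun X u hX => h2 X u (by rw [hX]; exact Bool.false_ne_true)) ?_ ?_
  · simpa using key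
  · intro _ h
    exact Rec82.dich_circuit (E := E) (U := U) (b := b) (ℓ := ℓ) (K := K + 2) (R := R) (q := q)
      (Y := Y) hb hℓ hq hY (qry π c o h) (numNot_qry π c o h) 0 (2 * s) (size_qry π c o h) hS
  · intro _ x hx m
    exact card_pat _ π c x m P (hP x hx)
  · intro x u hx hxu
    exact ⟨(), (pat_cover π c o x x (Finset.Subset.refl _) hx).1,
      (pat_cover π c o x (x ∪ Y u) Finset.subset_union_left hx).2 hxu⟩
  · intro t ht
    exact rare hN hU _ (fun x => planted_le Y x) t ht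

open Classical in
/-- The abstract average-case bound for functions determined by families of circuits without NOT
gates. -/
theorem fam_avg {T : Type} [Fintype T] {b ℓ K R N S : ℕ} {q : ℝ} {Y : U → Finset E}
    (hb : 1 ≤ b) (hℓ : 2 * b < 2 ^ ℓ) (hq : 64 * 2 ^ (K + 2) ≤ q)
    (hY : ∀ A : Finset E, A.card ≤ 2 * b →
      ((univ.filter (fun u => A ⊆ Y u)).card : ℝ) ≤ Fintype.card U * (1 / q) ^ A.card)
    (hN : ∀ u, N ≤ (Y u).card) (hU : 2 * Fintype.card U ≤ 2 ^ N)
    (π : ι → Bool ⊕ E) (acc : (ι → Bool) → Bool)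
    {cl : (ι → Bool) → Prop} (hcl : ∀ X : Finset E, cl (inp π X) ↔ ∃ u, Y u ⊆ X)
    (g : T → List (NegLim.Gate E)) (hg : ∀ t, NegLim.numNot (g t) = 0)
    (hgS : ∀ t, NegLim.size (g t) ≤ S)
    (hout : ∀ x y : Finset E, (∀ t, gval (g t) 0 x = gval (g t) 0 y) →
      acc (inp π x) = acc (inp π y))
    (hS : S ≤ 2 ^ b) (hSR : 2 ^ (K + 2) * ((S + 1) * (lowSets E b).card) ≤ 2 ^ R) (hR : 1 ≤ R)
    (hℓ1 : 1 ≤ ℓ) :
    (2 : ℝ) ^ (K + 2) * (1 - 2 * Ex (1 / (2 : ℝ) ^ (K + 2)) (2 ^ K) Y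
      (fun X => er (acc (inp π X) = true) (cl (inp π X)))) ≤
      44 * ((K + 2 : ℕ) : ℝ) * ((Fintype.card T * (ℓ * R) : ℕ) : ℝ) +
        2 ^ (K + 2) * (1 / 2) ^ (N + 1) := by
  set W : ℝ := ((lowSets E b).card : ℝ) with hW
  set ε : ℝ := ((S : ℝ) + 1) * (W * (1 / 2) ^ R) with hε
  have hε0 : 0 ≤ ε := by positivity
  have hmε : (2 : ℝ) ^ (K + 2) * ε ≤ 1 := by
    have e1 : ((2 : ℝ) ^ (K + 2) * (((S : ℝ) + 1) * W)) ≤ 2 ^ R := by
      rw [hW]; exact_mod_cast hSR
    rw [hε]
    have e4 : (1 / 2 : ℝ) ^ R = 1 / 2 ^ R := by rw [div_pow, one_pow]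
    rw [e4]
    have : (2 : ℝ) ^ (K + 2) * (((S : ℝ) + 1) * (W * (1 / 2 ^ R))) =
        ((2 : ℝ) ^ (K + 2) * (((S : ℝ) + 1) * W)) / 2 ^ R := by
      ring
    rw [this, div_le_one (by positivity)]
    exact e1
  obtain ⟨h1, h2⟩ := ef (Y := Y) (π := π) hcl (fun x => acc x = true)
  have key := avg_abs (E := E) (U := U) (J := T) (H := Unit) (b := 4)
    (K := K) (q := q) (ε := ε) (η := (1 / 2) ^ (N + 1)) (Y := Y)
    (by norm_num) (by push_cast; linarith) hε0 hmε
    (fun _ => ℓ * R) (fun _ => 1) (fun _ => Nat.one_le_iff_ne_zero.mpr (by positivity))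
    (fun _ => le_rfl)
    (fun _ _ => ()) (fun t _ x => gval (g t) 0 x) ?_ ?_
    (fun X => acc (inp π X))
    (fun X => er (acc (inp π X) = true) (cl (inp π X)))
    (fun X => if ∃ u, Y u ⊆ X then 1 else 0) (fun X => er_nonneg _ _)
    (fun X => by split_ifs <;> norm_num)
    (fun X hX => h1 X hX) (fun X u hX => h2 X u (by rw [hX]; exact Bool.false_ne_true)) ?_ ?_
  · simpa [Finset.card_univ] using key
  · intro t _
    exact Rec82.dich_circuit (E := E) (U := U) (b := b) (ℓ := ℓ) (K := K + 2) (R := R) (q := q)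
      (Y := Y) hb hℓ hq hY (g t) (hg t) 0 S (hgS t) hS
  · intro _ x hx m
    refine Finset.card_le_one.mpr ?_
    intro a _ b _
    rfl
  · intro x u hx hxu
    by_contra hcon
    push Not at hcon
    have h3 := hout x (x ∪ Y u) (by
      intro t
      rcases hgx : gval (g t) 0 x with _ | _
      · have h4 := hcon t hgx
        simp only [ne_eq, Bool.not_eq_true] at h4
        rw [h4]
      · exact (NegLim.gval_mono _ (hg t) 0 Finset.subset_union_left hgx).symm)
    rw [hx, hxu] at h3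
    cases h3
  · intro t ht
    exact rare hN hU _ (fun x => planted_le Y x) t ht

end Pool.Agent.AV
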