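import Pool.Agent.Work.MP_71c844_lc.AV.Circ
import Pool.Agent.Work.MP_71c844_lc.GR.Chain

/-!
# Block AV: the abstract average-case bound for the chain of the block GR
-/

namespace Pool.Agent.AV

open Finset Pool.Agent.LayCirc Pool.Agent.GR
open Pool.Agent.GapLim (ind ind_true ind_false)

set_option linter.unusedSectionVars false

section ex

variable {E Ω : Type} [Fintype Ω] [DecidableEq E] {p : Ω → ℝ} {D : Ω → Finset E}
variable {U : Type} [Fintype U]

/-- The expected value of `φ` for the hard distribution. -/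
noncomputable def ExS (p : Ω → ℝ) (D : Ω → Finset E) (n : ℕ) (Y : U → Finset E)
    (φ : Finset E → ℝ) : ℝ :=
  (∑ s ∈ range n, (Sn p D s φ ∅ + (∑ u, Sn p D s (fun x => φ (x ∪ Y u)) ∅) / Fintype.card U)) /
    (2 * n)

lemma ExS_sum {ι : Type*} (h1 : ∑ ω, p ω = 1) (n : ℕ) (Y : U → Finset E) (s : Finset ι)
    (φ : ι → Finset E → ℝ) :
    ExS p D n Y (fun x => ∑ i ∈ s, φ i x) = ∑ i ∈ s, ExS p D n Y (φ i) := by
  unfold ExS
  rw [← Finset.sum_div]
  congr 1
  rw [Finset.sum_comm]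
  refine Finset.sum_congr rfl fun t _ => ?_
  rw [Finset.sum_add_distrib, Sn_sum h1, ← Finset.sum_div]
  congr 2
  rw [Finset.sum_comm]
  refine Finset.sum_congr rfl fun u _ => ?_
  rw [Sn_sum h1]

lemma ExS_smul (n : ℕ) (Y : U → Finset E) (c : ℝ) (φ : Finset E → ℝ) :
    ExS p D n Y (fun x => c * φ x) = c * ExS p D n Y φ := by
  unfold ExS
  rw [← mul_div_assoc, Finset.mul_sum]
  congr 1
  refine Finset.sum_congr rfl fun t _ => ?_
  rw [Sn_smul, mul_add, ← mul_div_assoc, Finset.mul_sum]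
  congr 2
  refine Finset.sum_congr rfl fun u _ => ?_
  rw [Sn_smul]

lemma ExS_const [Nonempty U] (h1 : ∑ ω, p ω = 1) {n : ℕ} (hn : 1 ≤ n) (Y : U → Finset E)
    (c : ℝ) : ExS p D n Y (fun _ => c) = c := by
  unfold ExS
  have hU : (Fintype.card U : ℝ) ≠ 0 := by
    have : 0 < Fintype.card U := Fintype.card_pos
    positivity
  have hn' : (n : ℝ) ≠ 0 := by positivity
  simp only [Sn_const h1, Finset.sum_const, Finset.card_univ, nsmul_eq_mul, card_range]
  field_simp
  ring

lemma ExS_nonneg (h0 : ∀ ω, 0 ≤ p ω) (h1 : ∑ ω, p ω = 1) (n : ℕ) (Y : U → Finset E)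
    {φ : Finset E → ℝ} (h : ∀ x, 0 ≤ φ x) : 0 ≤ ExS p D n Y φ := by
  unfold ExS
  apply div_nonneg _ (by positivity)
  have key : ∀ (ψ : Finset E → ℝ), (∀ x, 0 ≤ ψ x) → ∀ s, 0 ≤ Sn p D s ψ ∅ := by
    intro ψ hψ s
    have := Sn_mono (D := D) h0 hψ s ∅
    rwa [Sn_const h1] at this
  refine Finset.sum_nonneg fun s _ => add_nonneg (key _ h s) (div_nonneg ?_ (by positivity))
  exact Finset.sum_nonneg fun u _ => key _ (fun x => h _) s

variable {ι : Type} [Fintype ι] [DecidableEq ι]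

/-- The hard distribution on the inputs. -/
lemma exists_distS [Fintype E] [Nonempty U] (h0 : ∀ ω, 0 ≤ p ω) (h1 : ∑ ω, p ω = 1) {n : ℕ}
    (hn : 1 ≤ n) (Y : U → Finset E) (π : ι → Bool ⊕ E) :
    ∃ Dd : (ι → Bool) → ℝ, (∀ x, 0 ≤ Dd x) ∧ ∑ x, Dd x = 1 ∧
      (∀ h : (ι → Bool) → ℝ, ∑ x, Dd x * h x = ExS p D n Y (fun X => h (inp π X))) := by
  classical
  have key : ∀ h : (ι → Bool) → ℝ,
      ∑ x, ExS p D n Y (fun X => if inp π X = x then (1 : ℝ) else 0) * h x =
        ExS p D n Y (fun X => h (inp π X)) := by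
    intro h
    have e1 : ∀ x, ExS p D n Y (fun X => if inp π X = x then (1 : ℝ) else 0) * h x =
        ExS p D n Y (fun X => h x * if inp π X = x then (1 : ℝ) else 0) := by
      intro x
      rw [ExS_smul, mul_comm]
    simp_rw [e1]
    rw [← ExS_sum h1]
    congr 1
    funext X
    rw [Finset.sum_eq_single (inp π X)]
    · simp
    · intro x _ hx
      rw [if_neg (Ne.symm hx), mul_zero]
    · intro hx
      exact absurd (mem_univ _) hx
  refine ⟨fun x => ExS p D n Y (fun X => if inp π X = x then (1 : ℝ) else 0), ?_, ?_, key⟩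
  · intro x
    exact ExS_nonneg h0 h1 n Y fun X => by split_ifs <;> norm_num
  · have := key (fun _ => 1)
    simp only [mul_one] at this
    rw [this, ExS_const h1 hn]

end ex

section main

variable {E Ω : Type} [Fintype Ω] [DecidableEq E] {p : Ω → ℝ} {D : Ω → Finset E}
variable {U : Type} [Fintype U] [Nonempty U]

open Classical in
/-- **The abstract average-case bound for chains.** -/
theorem avgS_abs {J H : Type*} [Fintype J] {K' : ℕ} {ε η : ℝ} {Q : U → Finset E}
    (h0 : ∀ ω, 0 ≤ p ω) (hp1 : ∑ ω, p ω = 1)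
    (hε0 : 0 ≤ ε) (hmε : 2 ^ K' * ε ≤ 1) (P : J → ℕ) (hP1 : ∀ j, 1 ≤ P j)
    (st : J → Finset E → H) (G : J → H → Finset E → Bool)
    (hP : ∀ j, ∀ s : ℕ → Finset E, Monotone s → ∀ m,
      ((range m).image (fun i => st j (s i))).card ≤ P j)
    (hG : ∀ j h, DichG p D (K' + 1) ε Q (G j h))
    (A : Finset E → Bool) (e F : Finset E → ℝ) (he0 : ∀ x, 0 ≤ e x) (hF0 : ∀ x, 0 ≤ F x)
    (h1 : ∀ x, A x = true → 1 ≤ F x + e x)
    (h2 : ∀ x u, A (x ∪ Q u) = false → 1 ≤ e (x ∪ Q u))
    (h3 : ∀ x u, A x = false → A (x ∪ Q u) = true →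
      ∃ j, G j (st j x) x = false ∧ G j (st j x) (x ∪ Q u) = true)
    (hFs : ∀ i < 2 ^ K', Sn p D i F ∅ ≤ η) :
    2 ^ K' * (1 - 2 * ExS p D (2 ^ K') Q e) ≤
      11 * ((K' + 1 : ℕ) : ℝ) * ((∑ j, P j : ℕ) : ℝ) + 2 ^ K' * η := by
  obtain ⟨m, hmdef⟩ : ∃ m, m = 2 ^ K' := ⟨_, rfl⟩
  have hm : 2 ^ (K' + 1) = 2 * m := by rw [pow_succ, mul_comm, hmdef]
  have hUpos : (0 : ℝ) < Fintype.card U := by exact_mod_cast Fintype.card_pos
  have hmε' : (m : ℝ) * ε ≤ 1 := by rw [hmdef]; push_cast; exact hmε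
  let ψ : J → Finset E → ℝ := fun j x =>
    (if G j (st j x) x = true then (0 : ℝ) else 1) *
        (((univ.filter (fun u => G j (st j x) (x ∪ Q u) = true)).card : ℝ) / Fintype.card U)
  have hψ0 : ∀ j x, 0 ≤ ψ j x := by
    intro j x
    simp only [ψ]
    apply mul_nonneg
    · split_ifs <;> norm_num
    · positivity
  -- the pointwise bound
  have hcov : ∀ x, 1 ≤ F x + ∑ j, ψ j x + (e x + (∑ u, e (x ∪ Q u)) / Fintype.card U) := by
    intro x
    have hs0 : 0 ≤ ∑ j, ψ j x := Finset.sum_nonneg fun j _ => hψ0 j x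
    have hu0 : 0 ≤ (∑ u, e (x ∪ Q u)) / Fintype.card U :=
      div_nonneg (Finset.sum_nonneg fun u _ => he0 _) hUpos.le
    rcases hA : A x with _ | _
    · have hcount : (Fintype.card U : ℝ) ≤ ∑ j, (if G j (st j x) x = true then (0 : ℝ) else 1) *
          ((univ.filter (fun u => G j (st j x) (x ∪ Q u) = true)).card : ℝ) +
          ∑ u, e (x ∪ Q u) := by
        have e1 : ∀ u : U, (1 : ℝ) ≤ ∑ j, (if G j (st j x) x = true then (0 : ℝ) else 1) *
            (if G j (st j x) (x ∪ Q u) = true then (1 : ℝ) else 0) + e (x ∪ Q u) := by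
          intro u
          have hnn : ∀ j, (0 : ℝ) ≤ (if G j (st j x) x = true then (0 : ℝ) else 1) *
                (if G j (st j x) (x ∪ Q u) = true then (1 : ℝ) else 0) := by
            intro j; split_ifs <;> norm_num
          rcases hAu : A (x ∪ Q u) with _ | _
          · have := h2 x u hAu
            have := Finset.sum_nonneg fun j (_ : j ∈ (univ : Finset J)) => hnn j
            linarith
          · obtain ⟨j, hi1, hi2⟩ := h3 x u hA hAu
            have s1 := Finset.single_le_sum (f := fun j =>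
              (if G j (st j x) x = true then (0 : ℝ) else 1) *
              (if G j (st j x) (x ∪ Q u) = true then (1 : ℝ) else 0))
              (fun j _ => hnn j) (mem_univ j)
            have s2 : (1 : ℝ) ≤ ∑ j, (if G j (st j x) x = true then (0 : ℝ) else 1) *
                (if G j (st j x) (x ∪ Q u) = true then (1 : ℝ) else 0) := by
              refine le_trans (le_of_eq ?_) s1
              simp only [hi1, hi2]
              norm_num
            have := he0 (x ∪ Q u)
            linarith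
        have e2 := Finset.sum_le_sum (fun u (_ : u ∈ (univ : Finset U)) => e1 u)
        rw [Finset.sum_const, Finset.card_univ, nsmul_eq_mul, mul_one, Finset.sum_add_distrib,
          Finset.sum_comm] at e2
        refine e2.trans (le_of_eq ?_)
        congr 1
        refine Finset.sum_congr rfl fun j _ => ?_
        rw [← Finset.mul_sum]
        congr 1
        rw [Finset.sum_boole]
      have e3 : ∑ j, ψ j x = (∑ j, (if G j (st j x) x = true then (0 : ℝ) else 1) *
          ((univ.filter (fun u => G j (st j x) (x ∪ Q u) = true)).card : ℝ))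
            / Fintype.card U := by
        rw [Finset.sum_div]
        refine Finset.sum_congr rfl fun j _ => ?_
        simp only [ψ]
        ring
      have e4 : 1 ≤ ∑ j, ψ j x + (∑ u, e (x ∪ Q u)) / Fintype.card U := by
        rw [e3, ← add_div, le_div_iff₀ hUpos, one_mul]
        exact hcount
      linarith [hF0 x, he0 x]
    · have := h1 x hA
      linarith
  -- each query
  have hψ : ∀ j, ∑ s ∈ range (2 ^ K'), Sn p D s (ψ j) ∅ ≤
      11 * ((K' + 1 : ℕ) : ℝ) * (P j : ℕ) := by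
    intro j
    rw [← hmdef]
    refine GR.sep_adaptive (D := D) (P := P j) (m := m) h0 hp1 hm (by omega) (hP1 j) hε0
      hmε' (st j) (G j) (hG j) ?_
    intro s hs
    refine le_trans (le_of_eq ?_) (hP j s hs m)
    congr!
  -- summation
  have htot : ((2 ^ K' : ℕ) : ℝ) ≤ ∑ s ∈ range (2 ^ K'), Sn p D s F ∅ +
      ∑ j, ∑ s ∈ range (2 ^ K'), Sn p D s (ψ j) ∅ +
      ∑ s ∈ range (2 ^ K'), (Sn p D s e ∅ + (∑ u, Sn p D s (fun x => e (x ∪ Q u)) ∅) /
        Fintype.card U) := by
    rw [Finset.sum_comm (s := univ), ← Finset.sum_add_distrib, ← Finset.sum_add_distrib]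
    have e1 : ∀ s ∈ range (2 ^ K'), (1 : ℝ) ≤ Sn p D s F ∅ + ∑ j, Sn p D s (ψ j) ∅ +
        (Sn p D s e ∅ + (∑ u, Sn p D s (fun x => e (x ∪ Q u)) ∅) / Fintype.card U) := by
      intro s _
      have := Sn_mono (D := D) h0 hcov s ∅
      rw [Sn_const hp1, Sn_fadd, Sn_fadd, Sn_fadd, Sn_sum hp1] at this
      have e2 : Sn p D s (fun x => (∑ u, e (x ∪ Q u)) / Fintype.card U) ∅ =
          (∑ u, Sn p D s (fun x => e (x ∪ Q u)) ∅) / Fintype.card U := by
        have e3 : (fun x => (∑ u, e (x ∪ Q u)) / (Fintype.card U : ℝ)) =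
            fun x => (1 / (Fintype.card U : ℝ)) * ∑ u, e (x ∪ Q u) := by
          funext x; ring
        rw [e3, Sn_smul, Sn_sum hp1]
        ring
      rw [e2] at this
      exact this
    have := Finset.sum_le_sum e1
    simpa using this
  have e5 := Finset.sum_le_sum (fun s (hs : s ∈ range (2 ^ K')) => hFs s (Finset.mem_range.mp hs))
  rw [Finset.sum_const, card_range, nsmul_eq_mul] at e5
  have e6 : ∑ j, ∑ s ∈ range (2 ^ K'), Sn p D s (ψ j) ∅ ≤
      11 * ((K' + 1 : ℕ) : ℝ) * ((∑ j, P j : ℕ) : ℝ) := by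
    refine (Finset.sum_le_sum fun j _ => hψ j).trans (le_of_eq ?_)
    rw [Nat.cast_sum, Finset.mul_sum]
  have e7 : ∑ s ∈ range (2 ^ K'), (Sn p D s e ∅ + (∑ u, Sn p D s (fun x => e (x ∪ Q u)) ∅) /
      Fintype.card U) = 2 * ((2 ^ K' : ℕ) : ℝ) * ExS p D (2 ^ K') Q e := by
    unfold ExS
    have : (2 * ((2 ^ K' : ℕ) : ℝ)) ≠ 0 := by positivity
    rw [mul_div_cancel₀ _ this]
  rw [e7] at htot
  have e8 : (2 : ℝ) ^ K' = ((2 ^ K' : ℕ) : ℝ) := by push_cast; ring
  rw [e8]
  nlinarith [htot, e5, e6]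

end main

end Pool.Agent.AV
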