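import Pool.Agent.Work.MP_71c844_lc.AV.Circ
import Pool.Agent.Work.MP_71c844_lc.EV.Main

/-!
# Block AV: every set of variables of CLIQUE counts, on average
-/

namespace Pool.Agent.AV

open Finset Pool.Agent.LayCirc Pool.Agent.EV
open Pool.Agent.NegLim (pull gph gval numNot lowSets mapVar Dich)

set_option linter.unusedSectionVars false

/-- the graph `x` has a clique on `k` vertices -/
def Clq (v k : ℕ) (x : Sym2 (Fin v) → Bool) : Prop :=
  ¬ (SimpleGraph.fromEdgeSet {e | x e = true}).CliqueFree k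

/-- A probability distribution on the inputs, supported on inputs which are equal outside `F`. -/
structure Distr {v : ℕ} (F : Finset (Sym2 (Fin v))) (D : (Sym2 (Fin v) → Bool) → ℝ) : Prop where
  nonneg : ∀ x, 0 ≤ D x
  sum : ∑ x, D x = 1
  supp : ∀ x y, D x ≠ 0 → D y ≠ 0 → ∀ e ∉ F, x e = y e

lemma Distr.er_le {v : ℕ} {F : Finset (Sym2 (Fin v))} {D : (Sym2 (Fin v) → Bool) → ℝ}
    (h : Distr F D) (p q : (Sym2 (Fin v) → Bool) → Prop) :
    0 ≤ ∑ x, D x * er (p x) (q x) :=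
  Finset.sum_nonneg fun x _ => mul_nonneg (h.nonneg x) (er_nonneg _ _)

open Classical in
/-- `Pr[right] - Pr[wrong]` -/
lemma adv_eq {v k : ℕ} {D : (Sym2 (Fin v) → Bool) → ℝ} (h : ∑ x, D x = 1)
    {p : (Sym2 (Fin v) → Bool) → Prop} :
    1 - 2 * ∑ x, D x * er (p x) (Clq v k x) =
      ∑ x, D x * (if (p x ↔ ¬ (SimpleGraph.fromEdgeSet {e | x e = true}).CliqueFree k)
        then 1 else -1) := by
  have e1 : ∀ x, D x * (if (p x ↔ ¬ (SimpleGraph.fromEdgeSet {e | x e = true}).CliqueFree k)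
        then (1 : ℝ) else -1) = D x - 2 * (D x * er (p x) (Clq v k x)) := by
    intro x
    by_cases hx : p x ↔ Clq v k x
    · rw [er_zero hx, if_pos (show p x ↔ ¬ _ from hx)]; ring
    · rw [er_one hx, if_neg (show ¬ (p x ↔ ¬ _) from hx)]; ring
  rw [Finset.sum_congr rfl fun x _ => e1 x, Finset.sum_sub_distrib, h, ← Finset.mul_sum]

lemma exists_point {v : ℕ} (F : Finset (Sym2 (Fin v))) :
    ∃ D : (Sym2 (Fin v) → Bool) → ℝ, Distr F D := by
  classical
  refine ⟨Pi.single (fun _ => false) 1, ?_, ?_, ?_⟩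
  · intro x
    by_cases h : x = fun _ => false
    · subst h; simp
    · rw [Pi.single_eq_of_ne h]
  · simp
  · intro x y hx hy e _
    have hx' : x = fun _ => false := by
      by_contra h
      exact hx (Pi.single_eq_of_ne h _)
    have hy' : y = fun _ => false := by
      by_contra h
      exact hy (Pi.single_eq_of_ne h _)
    rw [hx', hy']

/-- The average-case bound from the code and the projection. -/
lemma step_avg (I : Items) {N b σ κ m v k L K : ℕ} {q : ℝ}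
    {T : Fin N → Finset (Fin σ → Fin κ → ZMod 2)} {c : Cd ((Fin N × Fin σ) × Fin κ) m}
    (D : CodeData N b σ κ m T c q) {F : Finset (Sym2 (Fin v))}
    {π : Sym2 (Fin v) → Bool ⊕ (Fin N × (Fin σ → Fin κ → ZMod 2))}
    (hπ1 : ∀ e t, π e = .inr t → e ∈ F)
    (hπ : ∀ x : Fin N × (Fin σ → Fin κ → ZMod 2) → Bool, (¬ (gph (pull π x)).CliqueFree k ↔
      ∃ u, (∀ j, sy c u j ∈ T j) ∧ ∀ j, x (j, sy c u j) = true))
    (hb : 1 ≤ b) (hL2 : 2 ≤ L) (hbL : 2 * b < 2 ^ L) (hKL : K + 2 ≤ 2 * L) (hKN : K + 2 ≤ N + 1)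
    (hq : 64 * 2 ^ (K + 2) ≤ q) (hN : N * 2 ^ (σ * κ) + 1 ≤ 2 ^ (3 * L)) :
    ∃ Dd : (Sym2 (Fin v) → Bool) → ℝ, Distr F Dd ∧
      ∀ (s M : ℕ) (C : Circuit (Sym2 (Fin v)) s) (o : Fin s), 2 * s < 2 ^ b → Cl C F M →
        (2 : ℝ) ^ (K + 2) * (1 - 2 * ∑ x, Dd x * er (val C x o = true) (Clq v k x)) ≤
          3168 * b * L ^ 3 * M + 1 := by
  classical
  have : Nonempty (Us T c) := D.nonempty
  have hM : (0 : ℝ) < 2 ^ (K + 2) := by positivity
  have h0' : (0 : ℝ) ≤ 1 / 2 ^ (K + 2) := by positivity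
  have h1' : (1 : ℝ) / 2 ^ (K + 2) ≤ 1 := by
    rw [div_le_one hM]; exact one_le_pow₀ (by norm_num)
  obtain ⟨Dd, hD0, hD1, hDh, hDs⟩ := exists_dist (E := Fin N × (Fin σ → Fin κ → ZMod 2))
    (U := Us T c) (ι := Sym2 (Fin v)) (δ := 1 / (2 : ℝ) ^ (K + 2)) (n := 2 ^ K) h0' h1'
    Nat.one_le_two_pow (Yp T c) π
  refine ⟨Dd, ⟨fun x => hD0 x, hD1, ?_⟩, ?_⟩
  · intro x y hx hy e he
    obtain ⟨X, rfl⟩ := hDs x hx
    obtain ⟨Y, rfl⟩ := hDs y hy
    exact inp_agree hπ1 X Y e he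
  intro s M C o hS hM
  rw [hDh (fun x => er (val C x o = true) (Clq v k x))]
  have hM1 : 1 ≤ M := hM.one
  have hbL1 : 2 ≤ b * L := by nlinarith
  have hSR : 2 ^ (K + 2) * ((2 * s + 1) * (2 ^ (3 * L)) ^ (2 * b)) ≤ 2 ^ (9 * b * L) := by
    calc 2 ^ (K + 2) * ((2 * s + 1) * (2 ^ (3 * L)) ^ (2 * b))
        ≤ 2 ^ (2 * L) * (2 ^ b * (2 ^ (3 * L)) ^ (2 * b)) := by
          apply Nat.mul_le_mul (Nat.pow_le_pow_right (by norm_num) hKL)
          exact Nat.mul_le_mul_right _ (by omega)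
      _ = 2 ^ (2 * L + (b + 3 * L * (2 * b))) := by
          rw [← pow_mul, ← pow_add, ← pow_add]
      _ ≤ 2 ^ (9 * b * L) := by
          apply Nat.pow_le_pow_right (by norm_num)
          nlinarith
  have hSR' : 2 ^ (K + 2) * ((2 * s + 1) *
      (lowSets (Fin N × (Fin σ → Fin κ → ZMod 2)) b).card) ≤ 2 ^ (9 * b * L) := by
    refine le_trans ?_ hSR
    apply Nat.mul_le_mul_left
    apply Nat.mul_le_mul_left
    exact card_low_le b hN
  have hR : 1 ≤ 9 * b * L := by nlinarith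
  have hcl : ∀ X : Finset (Fin N × (Fin σ → Fin κ → ZMod 2)), Clq v k (inp π X) ↔
      ∃ u : Us T c, Yp T c u ⊆ X := fun X => planted_iff hπ X
  have hsmall : (2 : ℝ) ^ (K + 2) * (1 / 2) ^ (N + 1) ≤ 1 := by
    have e1 : (2 : ℝ) ^ (K + 2) ≤ 2 ^ (N + 1) := pow_le_pow_right₀ (by norm_num) hKN
    have e2 : (2 : ℝ) ^ (N + 1) * (1 / 2) ^ (N + 1) = 1 := by rw [← mul_pow]; norm_num
    have e3 : (0 : ℝ) < (1 / 2) ^ (N + 1) := by positivity
    nlinarith
  have hKL' : ((K + 2 : ℕ) : ℝ) ≤ 2 * L := by exact_mod_cast hKL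
  rcases hM with h | h
  · have key := pat_avg (E := Fin N × (Fin σ → Fin κ → ZMod 2)) (U := Us T c) (b := b) (ℓ := L)
      (K := K) (R := 9 * b * L) (N := N) (P := M) (q := q) (Y := Yp T c) hb hbL hq
      (fun A hA => by convert D.hY A hA) (fun u => (card_Yp u).ge) D.hU π C o
      (cl := Clq v k) hcl hM1
      (fun X hX => h _ (inp_mono π X hX) (fun i e he => inp_agree hπ1 _ _ e he)) hS.le hSR' hR
      (by omega)
    refine key.trans ?_
    have e1 : 44 * ((K + 2 : ℕ) : ℝ) * ((L * (9 * b * L) * M : ℕ) : ℝ) ≤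
        44 * (2 * L) * ((L * (9 * b * L) * M : ℕ) : ℝ) :=
      mul_le_mul_of_nonneg_right (mul_le_mul_of_nonneg_left hKL' (by norm_num)) (by positivity)
    have e2 : (44 : ℝ) * (2 * L) * ((L * (9 * b * L) * M : ℕ) : ℝ) = 792 * b * L ^ 3 * M := by
      push_cast; ring
    have e3 : (792 : ℝ) * b * L ^ 3 * M ≤ 3168 * b * L ^ 3 * M := by
      gcongr
      norm_num
    linarith
  · have hW : wiresF C F + numMixingF C F + 1 ≤ M := by
      rcases h with h | h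
      · exact h
      · have h1 := numMixing_le C h.1
        have h2 := numMixingF_le C F
        omega
    let Θ : Type := {i : Fin s // i ∈ (tgt C o).filter (fun i => Reads C F i)} × Bool
    have hΘ : Fintype.card Θ ≤ 4 * M := by
      have h1 := I.MxC (Sym2 (Fin v)) s C o F
      have h2 : Fintype.card Θ = ((tgt C o).filter (fun i => Reads C F i)).card * 2 := by
        rw [Fintype.card_prod, Fintype.card_coe, Fintype.card_bool]
      rw [h2]
      have h3 : ((tgt C o).filter (fun i => Reads C F i)).card ≤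
          wiresF C F + 2 * numMixingF C F + 1 := by convert h1
      omega
    have hsz : LayCirc.size C ≤ 2 * s := by
      have h1 : LayCirc.size C ≤ s := by
        unfold LayCirc.size
        refine (Finite.card_subtype_le _).trans ?_
        rw [Nat.card_eq_fintype_card, Fintype.card_fin]
      omega
    have key := fam_avg (E := Fin N × (Fin σ → Fin κ → ZMod 2)) (U := Us T c) (b := b) (ℓ := L)
      (K := K) (R := 9 * b * L) (N := N) (S := 2 * s) (q := q) (Y := Yp T c) (T := Θ) hb hbL hq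
      (fun A hA => by convert D.hY A hA) (fun u => (card_Yp u).ge) D.hU π (fun x => val C x o)
      (cl := Clq v k) hcl
      (fun t => mapVar π (mono C t.1.1 t.2))
      (fun t => by rw [NegLim.numNot_mapVar]; exact numNot_mono _ _ _)
      (fun t => by rw [NegLim.size_mapVar]; exact (size_mono C t.1.1 t.2).trans hsz) (by
        intro X Y hXY
        refine I.MxD (Sym2 (Fin v)) s C o F (inp π X) (inp π Y)
          (fun e he => inp_agree hπ1 X Y e he) ?_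
        intro i hi hr b'
        have h2 := hXY (⟨i, by rw [mem_filter]; exact ⟨hi, hr⟩⟩, b')
        have h3 : ∀ Z : Finset (Fin N × (Fin σ → Fin κ → ZMod 2)),
            gval (mapVar π (mono C i b')) 0 Z = val (fz C b') (inp π Z) i := fun Z => by
          rw [← output_mono]
          exact NegLim.output_mapVar π (fun e => decide (e ∈ Z)) (mono C i b')
        rw [h3, h3] at h2
        exact h2) hS.le hSR' hR (by omega)
    refine key.trans ?_
    have hΘ' : (Fintype.card Θ : ℝ) ≤ 4 * M := by exact_mod_cast hΘ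
    have e1 : 44 * ((K + 2 : ℕ) : ℝ) * ((Fintype.card Θ * (L * (9 * b * L)) : ℕ) : ℝ) ≤
        44 * (2 * L) * (4 * M * (L * (9 * b * L))) := by
      push_cast
      push_cast at hKL'
      gcongr
    have e2 : (44 : ℝ) * (2 * L) * (4 * M * (L * (9 * b * L))) = 3168 * b * L ^ 3 * M := by
      ring
    linarith

/-- **The average-case theorem for sets of variables.** -/
theorem main_var (I : Items) (v k w : ℕ) (hv : 2 ≤ v)
    (hk : 2 ^ 13 * (w + 1) ^ 2 * (Nat.log 2 v + 1) ^ 4 ≤ k) (hkv : 2 * k ≤ v)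
    (F : Finset (Sym2 (Fin v))) (hF : ∀ e ∈ F, ¬ e.IsDiag) :
    ∃ Dd : (Sym2 (Fin v) → Bool) → ℝ, Distr F Dd ∧
      ∀ (s M : ℕ) (C : Circuit (Sym2 (Fin v)) s) (o : Fin s), s < 2 ^ w → Cl C F M →
        (F.card : ℝ) * (1 - 2 * ∑ x, Dd x * er (val C x o = true) (Clq v k x)) <
          2 ^ 39 * M * (w + 1) ^ 3 * (Nat.log 2 v + 1) ^ 5 := by
  classical
  obtain ⟨b, hb⟩ : ∃ b, b = w + 1 := ⟨_, rfl⟩
  obtain ⟨L, hL⟩ : ∃ L, L = Nat.log 2 v + 1 := ⟨_, rfl⟩
  have hL' : ((Nat.log 2 v : ℝ) + 1) = (L : ℝ) := by rw [hL]; push_cast; ring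
  have hb' : ((w : ℝ) + 1) = (b : ℝ) := by rw [hb]; push_cast; ring
  rw [hL', hb']
  rw [← hb, ← hL] at hk
  have hb1 : 1 ≤ b := by omega
  have hL2 : 2 ≤ L := by
    have : 1 ≤ Nat.log 2 v := Nat.log_pos (by norm_num) hv
    omega
  have hvL : v < 2 ^ L := by rw [hL]; exact Nat.lt_pow_succ_log_self (by norm_num) v
  have hbR : (1 : ℝ) ≤ b := by exact_mod_cast hb1
  have hLR : (1 : ℝ) ≤ L := by exact_mod_cast (by omega : 1 ≤ L)
  by_cases hcon : 2 ^ 39 * b ^ 3 * L ^ 5 ≤ F.card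
  swap
  · -- small `F`
    obtain ⟨Dd, hD⟩ := exists_point F
    refine ⟨Dd, hD, fun s M C o hs hM => ?_⟩
    have hM1 : (1 : ℝ) ≤ M := by exact_mod_cast hM.one
    have h1 : (F.card : ℝ) < 2 ^ 39 * b ^ 3 * L ^ 5 := by
      push Not at hcon
      exact_mod_cast hcon
    have h2 : 1 - 2 * ∑ x, Dd x * er (val C x o = true) (Clq v k x) ≤ 1 := by
      have := hD.er_le (fun x => val C x o = true) (Clq v k)
      linarith
    calc (F.card : ℝ) * (1 - 2 * ∑ x, Dd x * er (val C x o = true) (Clq v k x))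
        ≤ F.card * 1 := mul_le_mul_of_nonneg_left h2 (by positivity)
      _ = F.card := mul_one _
      _ < 2 ^ 39 * b ^ 3 * L ^ 5 := h1
      _ = 2 ^ 39 * 1 * b ^ 3 * L ^ 5 := by ring
      _ ≤ 2 ^ 39 * M * b ^ 3 * L ^ 5 := by gcongr
  -- abbreviations
  have hS : ∀ s : ℕ, s < 2 ^ w → 2 * s < 2 ^ b := by
    intro s hs
    rw [hb, pow_succ]; omega
  obtain ⟨β, hβ⟩ : ∃ β, β = b * L := ⟨_, rfl⟩
  have hβ2 : 2 ≤ β := by rw [hβ]; nlinarith
  have hLβ : L ≤ β := by rw [hβ]; exact Nat.le_mul_of_pos_left _ (by omega)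
  have hbβ : b ≤ β := by rw [hβ]; exact Nat.le_mul_of_pos_right _ (by omega)
  obtain ⟨G, hG⟩ : ∃ G, G = b ^ 2 * L ^ 4 := ⟨_, rfl⟩
  have hGk : 8192 * G ≤ k := by
    calc 8192 * G = 2 ^ 13 * b ^ 2 * L ^ 4 := by rw [hG]; ring
      _ ≤ k := hk
  have hβG : 8 * β ≤ 2 * G := by
    rw [hβ, hG]
    have e1 : 4 * L ≤ L ^ 3 := by nlinarith [Nat.mul_le_mul hL2 hL2]
    have e2 : b ≤ b ^ 2 := by nlinarith
    calc 8 * (b * L) = 2 * (b * (4 * L)) := by ring
      _ ≤ 2 * (b ^ 2 * L ^ 3) := by gcongr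
      _ ≤ 2 * (b ^ 2 * L ^ 4) :=
          Nat.mul_le_mul_left _ (Nat.mul_le_mul_left _
            (Nat.pow_le_pow_right (by omega) (by norm_num)))
  obtain ⟨N, hN⟩ : ∃ N, N = 11 * β := ⟨_, rfl⟩
  have hN1 : 1 ≤ N := by omega
  have hN8 : 8 * b * L + 6 ≤ N := by
    have : 8 * b * L = 8 * β := by rw [hβ]; ring
    omega
  have hNv : N ≤ v := by omega
  have hbL : 2 * b < 2 ^ L := by omega
  -- the size of `F`
  have hFv : F.card + 1 ≤ 2 ^ (2 * L) := by
    have h1 : F.card ≤ Fintype.card (Sym2 (Fin v)) := Finset.card_le_univ F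
    rw [Sym2.card, Fintype.card_fin, Nat.choose_two_right] at h1
    have h2 : (v + 1) * (v + 1 - 1) / 2 ≤ (v + 1) * v := by
      rw [Nat.add_sub_cancel]
      exact Nat.div_le_self _ _
    have h3 : (v + 1) * v ≤ 2 ^ L * v := Nat.mul_le_mul_right _ hvL
    have h4 : 2 ^ L * v + 2 ^ L ≤ 2 ^ L * 2 ^ L := by
      have : 2 ^ L * (v + 1) ≤ 2 ^ L * 2 ^ L := Nat.mul_le_mul_left _ hvL
      linarith
    have h5 : 2 ^ (2 * L) = 2 ^ L * 2 ^ L := by rw [two_mul, pow_add]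
    have h6 : 1 ≤ 2 ^ L := Nat.one_le_two_pow
    omega
  have hb3 : 1 ≤ b ^ 3 := Nat.one_le_pow _ _ (by omega)
  have hNF : 1024 * N ^ 2 ≤ F.card := by
    refine le_trans ?_ hcon
    calc 1024 * N ^ 2 = 123904 * b ^ 2 * L ^ 2 := by rw [hN, hβ]; ring
      _ ≤ 2 ^ 39 * b ^ 3 * L ^ 5 := by
          gcongr <;> first | omega | norm_num
  -- the alphabet size
  obtain ⟨Z, hZ⟩ : ∃ Z, Z = 247808 * b ^ 2 * L ^ 2 := ⟨_, rfl⟩
  have hZN : 2048 * N ^ 2 = Z := by rw [hZ, hN, hβ]; ring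
  have hZ1 : 1 ≤ Z := by rw [hZ]; exact Nat.one_le_iff_ne_zero.mpr (by positivity)
  obtain ⟨Q, hQ⟩ : ∃ Q, Q = F.card / (3 * Z) := ⟨_, rfl⟩
  have hQF : Q * (3 * Z) ≤ F.card := by rw [hQ]; exact Nat.div_mul_le_self _ _
  have hFQ : F.card < 3 * Z * (Q + 1) := by rw [hQ]; exact Nat.lt_mul_div_succ _ (by omega)
  have hQ512 : 512 ≤ Q := by
    rw [hQ, Nat.le_div_iff_mul_le (by omega)]
    refine le_trans ?_ hcon
    calc 512 * (3 * Z) = 380633088 * b ^ 2 * L ^ 2 := by rw [hZ]; ring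
      _ ≤ 2 ^ 39 * b ^ 3 * L ^ 5 := by
          gcongr <;> first | omega | norm_num
  obtain ⟨K0, hK1, hK2⟩ := exists_scale 64 Q (by norm_num) (by omega)
  obtain ⟨K, rfl⟩ : ∃ K, K0 = K + 2 := by
    refine ⟨K0 - 2, ?_⟩
    by_contra h
    have h3 : K0 + 1 ≤ 2 := by omega
    have h4 : 2 ^ (K0 + 1) ≤ 2 ^ 2 := Nat.pow_le_pow_right (by norm_num) h3
    omega
  have hKL : K + 2 ≤ 2 * L := by
    have h1 : 2 ^ (K + 2) < 2 ^ (2 * L) := by
      have h2 : 2 ^ (K + 2) ≤ 2 ^ (K + 2) * 64 := Nat.le_mul_of_pos_right _ (by norm_num)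
      have h3 : Q ≤ F.card := by
        rw [hQ]; exact Nat.div_le_self _ _
      omega
    exact ((Nat.pow_lt_pow_iff_right (by norm_num : 1 < 2)).mp h1).le
  have hKN : K + 2 ≤ N + 1 := by omega
  have hq : (64 : ℝ) * 2 ^ (K + 2) ≤ (Q : ℝ) := by
    have : 64 * 2 ^ (K + 2) ≤ Q := by omega
    exact_mod_cast this
  have hsym : ∀ n : ℕ, F.card ≤ Z * n → 3 * Q ≤ n := by
    intro n hn
    have h1 : Z * (3 * Q) ≤ Z * n := by
      calc Z * (3 * Q) = Q * (3 * Z) := by ring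
        _ ≤ F.card := hQF
        _ ≤ Z * n := hn
    exact Nat.le_of_mul_le_mul_left h1 (by omega)
  obtain ⟨lam⟩ : Nonempty (Fin v ↪ (Fin L → ZMod 2)) := by
    apply Function.Embedding.nonempty_of_card_le
    rw [Fintype.card_fin, Fintype.card_pi, Finset.prod_const, Finset.card_univ, Fintype.card_fin,
      ZMod.card]
    exact hvL.le
  have hN3L : ∀ σ : ℕ, σ ≤ 2 → N * 2 ^ (σ * L) + 1 ≤ 2 ^ (3 * L) := by
    intro σ hσ
    have h1 : N + 1 ≤ 2 ^ L := by omega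
    have h2 : 2 ^ (σ * L) ≤ 2 ^ (2 * L) :=
      Nat.pow_le_pow_right (by norm_num) (Nat.mul_le_mul_right _ hσ)
    have h3 : 1 ≤ 2 ^ (2 * L) := Nat.one_le_two_pow
    have h4 : 2 ^ (3 * L) = 2 ^ L * 2 ^ (2 * L) := by rw [← pow_add]; congr 1; ring
    rw [h4]
    calc N * 2 ^ (σ * L) + 1 ≤ N * 2 ^ (2 * L) + 2 ^ (2 * L) := by gcongr
      _ = (N + 1) * 2 ^ (2 * L) := by ring
      _ ≤ 2 ^ L * 2 ^ (2 * L) := Nat.mul_le_mul_right _ h1
  -- the final estimate
  have fin : (∃ Dd : (Sym2 (Fin v) → Bool) → ℝ, Distr F Dd ∧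
      ∀ (s M : ℕ) (C : Circuit (Sym2 (Fin v)) s) (o : Fin s), 2 * s < 2 ^ b → Cl C F M →
        (2 : ℝ) ^ (K + 2) * (1 - 2 * ∑ x, Dd x * er (val C x o = true) (Clq v k x)) ≤
          3168 * b * L ^ 3 * M + 1) →
      ∃ Dd : (Sym2 (Fin v) → Bool) → ℝ, Distr F Dd ∧
      ∀ (s M : ℕ) (C : Circuit (Sym2 (Fin v)) s) (o : Fin s), s < 2 ^ w → Cl C F M →
        (F.card : ℝ) * (1 - 2 * ∑ x, Dd x * er (val C x o = true) (Clq v k x)) <
          2 ^ 39 * M * b ^ 3 * L ^ 5 := by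
    rintro ⟨Dd, hD, h⟩
    refine ⟨Dd, hD, fun s M C o hs hM => ?_⟩
    have key := h s M C o (hS s hs) hM
    have hM1 : (1 : ℝ) ≤ M := by exact_mod_cast hM.one
    generalize 1 - 2 * ∑ x, Dd x * er (val C x o = true) (Clq v k x) = α at key ⊢
    have hpos : (0 : ℝ) < 2 ^ 39 * M * b ^ 3 * L ^ 5 := by positivity
    rcases le_or_gt α 0 with hα | hα
    · exact lt_of_le_of_lt (mul_nonpos_of_nonneg_of_nonpos (by positivity) hα) hpos
    have h1 : (Q : ℝ) + 1 ≤ 128 * 2 ^ (K + 2) := by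
      have : Q + 1 ≤ 128 * 2 ^ (K + 2) := by
        have : 2 ^ (K + 2 + 1) * 64 = 128 * 2 ^ (K + 2) := by rw [pow_succ 2 (K + 2)]; ring
        omega
      exact_mod_cast this
    have h2 : (F.card : ℝ) < 3 * Z * (Q + 1) := by exact_mod_cast hFQ
    have hZR : (Z : ℝ) = 247808 * b ^ 2 * L ^ 2 := by rw [hZ]; push_cast; ring
    have hbLM : (1 : ℝ) ≤ b * L ^ 3 * M := by
      have : (1 : ℝ) ≤ L ^ 3 := one_le_pow₀ hLR
      exact one_le_mul_of_one_le_of_one_le (one_le_mul_of_one_le_of_one_le hbR this) hM1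
    calc (F.card : ℝ) * α ≤ 3 * Z * (Q + 1) * α := mul_le_mul_of_nonneg_right h2.le hα.le
      _ ≤ 3 * Z * (128 * 2 ^ (K + 2)) * α := by gcongr
      _ = 384 * Z * (2 ^ (K + 2) * α) := by ring
      _ ≤ 384 * Z * (3168 * b * L ^ 3 * M + 1) :=
          mul_le_mul_of_nonneg_left key (by positivity)
      _ ≤ 384 * Z * (3169 * (b * L ^ 3 * M)) := by
          apply mul_le_mul_of_nonneg_left _ (by positivity)
          linarith
      _ = 301556563968 * M * b ^ 3 * L ^ 5 := by rw [hZR]; ring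
      _ < 2 ^ 39 * M * b ^ 3 * L ^ 5 := by
          have : (0 : ℝ) < M * b ^ 3 * L ^ 5 := by positivity
          nlinarith
  by_cases hdeg : ∀ x, 256 * N * (F.filter (fun e => x ∈ e)).card ≤ F.card
  · -- no vertex of large degree
    obtain ⟨χ, hχ1, hχ2⟩ := I.Lg I.Pf I.Pe I.Mv v N F hN1 hF hNF (by convert hdeg)
    obtain ⟨hc1, hc2⟩ := I.CdB v N L F χ lam
    obtain ⟨m, hm1, hm2, c, D⟩ := exists_code I (TB F χ lam) hb1 (by omega) hN8 (by omega)
      (Q := Q) (fun j => hsym _ (by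
        rw [hc1 j, ← hZN]
        have h1 := hχ2 j
        refine h1.trans ?_
        exact Nat.mul_le_mul_right _ (Nat.mul_le_mul_right _ (by norm_num))))
      ((Nat.add_le_add_right hc2 1).trans hFv)
    have hm3 : m ≤ 27 * (b * L ^ 2) := by
      have e1 : N * 2 * L = 22 * (b * L ^ 2) := by rw [hN, hβ]; ring
      have e2 : 8 * b * L ≤ 4 * (b * L ^ 2) := by
        calc 8 * b * L = 4 * (b * (2 * L)) := by ring
          _ ≤ 4 * (b * (L * L)) := by gcongr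
          _ = 4 * (b * L ^ 2) := by ring
      have e3 : 4 ≤ b * L ^ 2 := by nlinarith [Nat.mul_le_mul hL2 hL2]
      omega
    have hgad : 2 * N * L * m ≤ 594 * G := by
      calc 2 * N * L * m ≤ 2 * N * L * (27 * (b * L ^ 2)) := Nat.mul_le_mul_left _ hm3
        _ = 594 * G := by rw [hN, hβ, hG]; ring
    obtain ⟨d, hd⟩ : ∃ d, 2 * N * L * m + 2 * N + d = k :=
      ⟨k - (2 * N * L * m + 2 * N), by omega⟩
    obtain ⟨π, hπ1, hπ2⟩ := I.InB I.GaY I.GaN I.Em v N L m d k F χ lam c hN1 (by omega) hm1 hd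
      (by omega)
    exact fin (step_avg I D hπ1 (fun x => hπ2 x) hb1 hL2 hbL hKL hKN hq (hN3L 2 le_rfl))
  · -- a vertex of large degree
    push Not at hdeg
    obtain ⟨a₀, ha₀⟩ := hdeg
    obtain ⟨χ, hχ0, hχ1, hχ2, hχ3⟩ := I.Sg v N F a₀ (by omega) hN1 hF hNF (by convert ha₀)
    obtain ⟨hc1, hc2⟩ := I.CdS v N L χ lam
    obtain ⟨m, hm1, hm2, c, D⟩ := exists_code I (TS χ lam) hb1 (by omega) hN8 (by omega)
      (Q := Q) (fun j => hsym _ (by
        rw [hc1 j, ← hZN]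
        exact hχ3 j))
      (by
        refine (Nat.add_le_add_right hc2 1).trans ?_
        refine le_trans (Nat.succ_le_of_lt hvL) ?_
        exact Nat.pow_le_pow_right (by norm_num) (by omega))
    have hm3 : m ≤ 27 * (b * L ^ 2) := by
      have e1 : N * 1 * L = 11 * (b * L ^ 2) := by rw [hN, hβ]; ring
      have e2 : 8 * b * L ≤ 4 * (b * L ^ 2) := by
        calc 8 * b * L = 4 * (b * (2 * L)) := by ring
          _ ≤ 4 * (b * (L * L)) := by gcongr
          _ = 4 * (b * L ^ 2) := by ring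
      have e3 : 4 ≤ b * L ^ 2 := by nlinarith [Nat.mul_le_mul hL2 hL2]
      omega
    have hgad : N * L * m ≤ 297 * G := by
      calc N * L * m ≤ N * L * (27 * (b * L ^ 2)) := Nat.mul_le_mul_left _ hm3
        _ = 297 * G := by rw [hN, hβ, hG]; ring
    obtain ⟨d, hd⟩ : ∃ d, N * L * m + N + d = k := ⟨k - (N * L * m + N), by omega⟩
    obtain ⟨π, hπ1, hπ2⟩ := I.InS I.GaY I.GaN I.Em v N L m d k a₀ χ lam c hχ0 hN1 (by omega) hm1
      (by omega) hd (by omega)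
    refine fin (step_avg I D (F := F) (fun e t ht => ?_) (fun x => hπ2 x) hb1 hL2 hbL hKL hKN hq
      (hN3L 1 (by norm_num)))
    obtain ⟨x, hx, rfl⟩ := hπ1 e t ht
    exact hχ1 x hx

end Pool.Agent.AV
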